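import Pool.Agent.Lib.MP_79d702_lc.Tar.Round

/-!
The algorithm approximates the relaxation; the test is monotone.
-/

namespace Pool.Agent.Lib.MP_79d702_lc.Tar

open Finset

theorem approx {n v : ℕ} (hv : 1 ≤ v) (hvn : v ≤ n) {m : ℕ → ℕ → ℕ}
    (hm : ∑ a : Fin v, ∑ b : Fin v, m a b ≤ n) :
    |(out n v (mk v fun a b => m a b) : ℝ) / (pQ n : ℝ) ^ 3 - theta n v m| ≤ 1 / (16 * n) := by
  have v1 : (1 : ℝ) ≤ v := by exact_mod_cast hv
  have vn : (v : ℝ) ≤ n := by exact_mod_cast hvn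
  have n1 : (1 : ℝ) ≤ n := v1.trans vn
  have hQ : (pQ n : ℝ) = 256 * n ^ 4 := by unfold pQ; push_cast; rfl
  have Q0 : (0 : ℝ) < pQ n := by rw [hQ]; positivity
  have hm' : ∑ a : Fin v, ∑ b : Fin v, (m a b : ℝ) ≤ n := by exact_mod_cast hm
  set G : ℕ → List (List ℤ) := fun t => (List.range t).foldl
    (fun G _ => step n v (mk v fun a b => m a b) G) (mk v fun _ _ => 0) with hG
  have G1 : ∀ t, G (t + 1) = step n v (mk v fun a b => m a b) (G t) := fun t => by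
    simp only [hG, List.range_succ, List.foldl_append, List.foldl_cons, List.foldl_nil]
  have G0 : ∀ a b : Fin v, ent (G 0) a b = 0 := fun a b => ent_mk' v _ a b
  choose ρ r1 r2 r3 using fun t => round hv hvn hm (G t)
  simp only [← G1] at r2
  set T := pQ n ^ 2 with hT
  have T1 : (T : ℝ) = (pQ n : ℝ) ^ 2 := by rw [hT]; push_cast; rfl
  have T0 : 0 < T := by
    have : (0 : ℝ) < T := by rw [T1]; positivity
    exact_mod_cast this
  have eo : (out n v (mk v fun a b => m a b) : ℝ) = ∑ a : Fin v, ∑ b : Fin v, (ent (G T) a b : ℝ) -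
      2 * (n : ℝ) ^ 2 * ∑ a : Fin v, ∑ b : Fin v, (m a b : ℝ) * max (ent (G T) a b : ℝ) 0 := by
    change ((outOf n v _ (G T) : ℤ) : ℝ) = _
    simp only [outOf, sm_eq, ent_mk', mul_sum, ← sum_sub_distrib]
    push_cast
    refine sum_congr rfl fun a _ => sum_congr rfl fun b _ => ?_
    split_ifs with h
    · rw [max_eq_right (by exact_mod_cast h)]
    · rw [max_eq_left (by exact_mod_cast (not_le.mp h).le)]
  have e1 : ∀ a b : Fin v, |(ent (G T) a b : ℝ) - pQ n * ∑ t ∈ range T, ρ t a b| ≤ T := by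
    intro a b
    have h1 := sum_range_sub (fun t => (ent (G t) a b : ℝ)) T
    rw [G0, Int.cast_zero, sub_zero] at h1
    rw [← h1, mul_sum, ← sum_sub_distrib]
    refine (abs_sum_le_sum_abs _ _).trans ((sum_le_card_nsmul _ _ 1 fun t _ => (r2 t a b).1).trans ?_)
    simp
  have e2 : ∀ f : Fin v → Fin v → ℝ, ∀ c : ℝ, ∑ a, ∑ b, (f a b + c) = ∑ a, ∑ b, f a b + v ^ 2 * c := by
    intro f c
    simp only [sum_add_distrib, sum_const, card_univ, Fintype.card_fin, nsmul_eq_mul]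
    ring
  have e3 : ∀ f : Fin v → Fin v → ℝ, ∀ c : ℝ, 0 ≤ c →
      ∑ a : Fin v, ∑ b : Fin v, m a b * f a b - n * c ≤ ∑ a : Fin v, ∑ b : Fin v, m a b * (f a b - c) := by
    intro f c hc
    simp only [mul_sub, sum_sub_distrib, ← sum_mul]
    linarith [mul_le_mul_of_nonneg_right hm' hc]
  have v2 : (v : ℝ) ^ 2 ≤ n ^ 3 := (pow_le_pow_left₀ (by linarith) vn 2).trans
    (pow_le_pow_right₀ n1 (by norm_num))
  have n3 : (n : ℝ) ^ 3 * (pQ n : ℝ) ^ 2 = (pQ n : ℝ) ^ 3 * (1 / (256 * n)) := by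
    rw [hQ]; field_simp
  have n4 : (v : ℝ) ^ 2 * (pQ n : ℝ) ^ 2 ≤ (pQ n : ℝ) ^ 3 * (1 / (256 * n)) :=
    n3 ▸ mul_le_mul_of_nonneg_right v2 (by positivity)
  have n5 : 1 / (16 * n : ℝ) = 16 * (1 / (256 * n)) := by field_simp; norm_num
  have n6 : 3 / (128 * n : ℝ) = 6 * (1 / (256 * n)) := by field_simp; norm_num
  have n7 : 0 ≤ (pQ n : ℝ) ^ 3 * (1 / (256 * n)) := by positivity
  rw [abs_le, n5, neg_le_sub_iff_le_add, sub_le_iff_le_add, ← sub_le_iff_le_add,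
    le_div_iff₀ (by positivity), div_le_iff₀ (by positivity), eo]
  constructor
  · have h1 := sum_le_sum fun t (_ : t ∈ range T) => r3 t
    rw [sum_const, card_range, nsmul_eq_mul, sum_sub_distrib, ← mul_sum, n6, T1] at h1
    have h2 : (pQ n : ℝ) * ∑ t ∈ range T, ∑ a, ∑ b, ρ t a b ≤
        ∑ a : Fin v, ∑ b : Fin v, (ent (G T) a b : ℝ) + v ^ 2 * (pQ n : ℝ) ^ 2 := by
      rw [← e2, sum_comm, mul_sum]
      refine sum_le_sum fun a _ => ?_
      rw [sum_comm, mul_sum]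
      refine sum_le_sum fun b _ => ?_
      linarith [(abs_le.mp (e1 a b)).1]
    have h3 : (pQ n : ℝ) ^ 2 * ∑ a : Fin v, ∑ b : Fin v, (m a b : ℝ) * max (ent (G T) a b : ℝ) 0 -
        n * (2 * (pQ n : ℝ) ^ 4) ≤ pQ n * ∑ t ∈ range T, ∑ a : Fin v, ∑ b : Fin v,
          m a b * (clamp 0 ((pQ n : ℤ) ^ 2) (ent (G t) a b) * ρ t a b) := by
      have h4 := e3 (fun a b => (pQ n : ℝ) ^ 2 * max (ent (G T) a b : ℝ) 0) (2 * (pQ n : ℝ) ^ 4)
        (by positivity)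
      simp only [mul_left_comm (m _ _ : ℝ), ← mul_sum] at h4
      refine h4.trans ?_
      rw [sum_comm (s := range T), mul_sum]
      refine sum_le_sum fun a _ => ?_
      rw [sum_comm, mul_sum]
      refine sum_le_sum fun b _ => ?_
      rw [← mul_sum, mul_left_comm]
      refine mul_le_mul_of_nonneg_left ?_ (Nat.cast_nonneg _)
      have h5 := regret (L := (pQ n : ℤ) ^ 2) (by positivity) (fun t => ent (G t) a b) (G0 a b)
        (fun t => (r2 t a b).2) T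
      have h6 : ∑ t ∈ range T, (clamp 0 ((pQ n : ℤ) ^ 2) (ent (G t) a b) : ℝ) *
          (ent (G (t + 1)) a b - ent (G t) a b) ≤ ∑ t ∈ range T, ((pQ n : ℝ) *
          (clamp 0 ((pQ n : ℤ) ^ 2) (ent (G t) a b) * ρ t a b) + (pQ n : ℝ) ^ 2) := by
        refine sum_le_sum fun t _ => ?_
        have c0 := clamp_mem (lo := 0) (hi := (pQ n : ℤ) ^ 2) (by positivity) (ent (G t) a b)
        have c1 : (0 : ℝ) ≤ clamp 0 ((pQ n : ℤ) ^ 2) (ent (G t) a b) := by exact_mod_cast c0.1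
        have c2 : (clamp 0 ((pQ n : ℤ) ^ 2) (ent (G t) a b) : ℝ) ≤ (pQ n : ℝ) ^ 2 := by
          exact_mod_cast c0.2
        nlinarith [mul_le_mul_of_nonneg_left (abs_le.mp (r2 t a b).1).2 c1]
      rw [sum_add_distrib, ← mul_sum, sum_const, card_range, nsmul_eq_mul, T1] at h6
      rw [T1] at h5
      push_cast at h5
      nlinarith
    have h7 := mul_le_mul_of_nonneg_left h1 Q0.le
    have h8 := mul_le_mul_of_nonneg_left h3 (by positivity : 0 ≤ 2 * (n : ℝ) ^ 2 / (pQ n : ℝ) ^ 2)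
    have h9 : ∀ x : ℝ, 2 * (n : ℝ) ^ 2 / (pQ n : ℝ) ^ 2 * ((pQ n : ℝ) ^ 2 * x - n * (2 * (pQ n : ℝ) ^ 4))
        = 2 * (n : ℝ) ^ 2 * x - 4 * ((n : ℝ) ^ 3 * (pQ n : ℝ) ^ 2) := fun x => by field_simp; ring
    rw [h9, n3] at h8
    nlinarith
  · have h1 := le_theta n m (Dens.avg T0 r1)
    unfold value at h1
    simp only [Matrix.smul_apply, Matrix.sum_apply, smul_eq_mul, T1] at h1
    have h0 : ∀ x : ℝ, (pQ n : ℝ) ^ 3 * (((pQ n : ℝ) ^ 2)⁻¹ * x) = pQ n * x := fun x => by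
      field_simp
    have h2 : ∑ a : Fin v, ∑ b : Fin v, (ent (G T) a b : ℝ) ≤ (pQ n : ℝ) ^ 3 *
        ∑ a, ∑ b, ((pQ n : ℝ) ^ 2)⁻¹ * ∑ t ∈ range T, ρ t a b + v ^ 2 * (pQ n : ℝ) ^ 2 := by
      simp only [mul_sum _ _ ((pQ n : ℝ) ^ 3), h0]
      rw [← e2]
      exact sum_le_sum fun a _ => sum_le_sum fun b _ => by linarith [(abs_le.mp (e1 a b)).2]
    have h3 : (pQ n : ℝ) ^ 3 * ∑ a : Fin v, ∑ b : Fin v, (m a b : ℝ) *
        max (((pQ n : ℝ) ^ 2)⁻¹ * ∑ t ∈ range T, ρ t a b) 0 - n * (pQ n : ℝ) ^ 2 ≤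
        ∑ a : Fin v, ∑ b : Fin v, (m a b : ℝ) * max (ent (G T) a b : ℝ) 0 := by
      have h4 := e3 (fun a b => (pQ n : ℝ) ^ 3 *
        max (((pQ n : ℝ) ^ 2)⁻¹ * ∑ t ∈ range T, ρ t a b) 0) ((pQ n : ℝ) ^ 2) (by positivity)
      simp only [mul_left_comm (m _ _ : ℝ), ← mul_sum] at h4
      refine h4.trans (sum_le_sum fun a _ => sum_le_sum fun b _ =>
        mul_le_mul_of_nonneg_left ?_ (Nat.cast_nonneg _))
      rw [mul_max_of_nonneg _ _ (by positivity), h0, mul_zero, sub_le_iff_le_add]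
      refine max_le ?_ (by positivity)
      linarith [(abs_le.mp (e1 a b)).1, le_max_left (ent (G T) a b : ℝ) 0]
    have h7 := mul_le_mul_of_nonneg_left h1 (by positivity : 0 ≤ (pQ n : ℝ) ^ 3)
    have h8 := mul_le_mul_of_nonneg_left h3 (by positivity : 0 ≤ 2 * (n : ℝ) ^ 2)
    nlinarith

theorem acc_iff {n v k : ℕ} (hn : 1 ≤ n) (m : ℕ → ℕ → ℕ) :
    acc n v k (mk v fun a b => m a b) = true ↔
      3 * k / 4 + ((∑ a : Fin v, ∑ b : Fin v, m a b : ℕ) : ℝ) * (1 / (8 * n)) ≤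
        (out n v (mk v fun a b => m a b) : ℝ) / (pQ n : ℝ) ^ 3 := by
  have n1 : (1 : ℝ) ≤ n := by exact_mod_cast hn
  have Q0 : (0 : ℝ) < pQ n := by unfold pQ; push_cast; positivity
  rw [acc, decide_eq_true_eq, ← Int.cast_le (R := ℝ), le_div_iff₀ (by positivity)]
  simp only [sm_eq, ent_mk']
  push_cast
  rw [← mul_le_mul_iff_right₀ (by positivity : (0 : ℝ) < 8 * n)
    (b := (_ + _) * (pQ n : ℝ) ^ 3)]
  refine iff_of_eq (congrArg (· ≤ 8 * (n : ℝ) * out n v (mk v fun a b => m a b)) ?_)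
  field_simp
  ring

theorem acc_mono {n v k : ℕ} (hv : 1 ≤ v) (hvn : v ≤ n) {m m' : ℕ → ℕ → ℕ}
    (hm : ∑ a : Fin v, ∑ b : Fin v, m a b ≤ n) (h : ∀ a < v, ∀ b < v, m' a b ≤ m a b)
    (ha : acc n v k (mk v fun a b => m a b) = true) :
    acc n v k (mk v fun a b => m' a b) = true := by
  have h0 : ∀ a : Fin v, ∑ b : Fin v, m' a b ≤ ∑ b : Fin v, m a b :=
    fun a => sum_le_sum fun b _ => h a a.2 b b.2
  rcases (sum_le_sum fun a (_ : a ∈ univ) => h0 a).eq_or_lt with h1 | h1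
  · have h2 := (sum_eq_sum_iff_of_le fun a _ => h0 a).mp h1
    have h3 : (mk v fun a b => m' a b) = mk v fun a b => m a b := by
      refine List.map_congr_left fun a ha => List.map_congr_left fun b hb => ?_
      rw [List.mem_range] at ha hb
      exact congrArg _ ((sum_eq_sum_iff_of_le fun (b : Fin v) (_ : b ∈ univ) => h a ha b b.2).mp
        (h2 ⟨a, ha⟩ (mem_univ _)) ⟨b, hb⟩ (mem_univ _))
    rwa [h3]
  · rw [acc_iff (hv.trans hvn)] at ha ⊢
    have h2 := (abs_le.mp (approx hv hvn hm)).2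
    have h3 := (abs_le.mp (approx hv hvn (h1.le.trans hm))).1
    have h4 := theta_anti hv n h
    have h5 : ((∑ a : Fin v, ∑ b : Fin v, m' a b : ℕ) : ℝ) + 1 ≤
      (∑ a : Fin v, ∑ b : Fin v, m a b : ℕ) := by exact_mod_cast h1
    have h6 := mul_le_mul_of_nonneg_right h5 (by positivity : (0 : ℝ) ≤ 1 / (8 * n))
    have h7 : (1 : ℝ) / (8 * n) = 2 * (1 / (16 * n)) := by ring
    linarith

theorem acc_pos {n v k : ℕ} (hv : 1 ≤ v) (hvn : v ≤ n) (hk : 1 ≤ k) {m : ℕ → ℕ → ℕ}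
    (hm : ∑ a : Fin v, ∑ b : Fin v, m a b ≤ n) (h : (k : ℝ) ≤ theta n v m) :
    acc n v k (mk v fun a b => m a b) = true := by
  have n1 : (1 : ℝ) ≤ n := by exact_mod_cast hv.trans hvn
  have k1 : (1 : ℝ) ≤ k := by exact_mod_cast hk
  rw [acc_iff (hv.trans hvn)]
  have h2 := (abs_le.mp (approx hv hvn hm)).1
  have h3 : ((∑ a : Fin v, ∑ b : Fin v, m a b : ℕ) : ℝ) ≤ n := by exact_mod_cast hm
  have h4 := mul_le_mul_of_nonneg_right h3 (by positivity : (0 : ℝ) ≤ 1 / (8 * n))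
  have h5 : (n : ℝ) * (1 / (8 * n)) = 1 / 8 := by field_simp
  have h6 : (1 : ℝ) / (16 * n) ≤ 1 / 16 := one_div_le_one_div_of_le (by norm_num) (by linarith)
  linarith

theorem acc_neg {n v k : ℕ} (hv : 1 ≤ v) (hvn : v ≤ n) (hk : 1 ≤ k) {m : ℕ → ℕ → ℕ}
    (hm : ∑ a : Fin v, ∑ b : Fin v, m a b ≤ n) (h : theta n v m ≤ k / 2) :
    acc n v k (mk v fun a b => m a b) = false := by
  have n1 : (1 : ℝ) ≤ n := by exact_mod_cast hv.trans hvn
  have k1 : (1 : ℝ) ≤ k := by exact_mod_cast hk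
  rw [← Bool.not_eq_true, acc_iff (hv.trans hvn), not_le]
  have h2 := (abs_le.mp (approx hv hvn hm)).2
  have h3 : 0 ≤ ((∑ a : Fin v, ∑ b : Fin v, m a b : ℕ) : ℝ) * (1 / (8 * n)) := by positivity
  have h6 : (1 : ℝ) / (16 * n) ≤ 1 / 16 := one_div_le_one_div_of_le (by norm_num) (by linarith)
  linarith

end Pool.Agent.Lib.MP_79d702_lc.Tar
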