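import Pool.Agent.Shared.PolyTimeInt

/-!
A semidefinite relaxation of the independence number and an integer algorithm that approximates it.
-/

namespace Pool.Agent.Lib.MP_79d702_lc.Tar

open Finset Pool.Agent.Shared.PolyTime

/-- entry of an integer matrix given as a list of rows -/
def ent (A : List (List ℤ)) (a b : ℕ) : ℤ := (A.getD a []).getD b 0

def mk (v : ℕ) (f : ℕ → ℕ → ℤ) : List (List ℤ) :=
  (List.range v).map fun a => (List.range v).map fun b => f a b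

def sm (v : ℕ) (f : ℕ → ℤ) : ℤ := ((List.range v).map f).sum

def mmul (v : ℕ) (A B : List (List ℤ)) : List (List ℤ) :=
  mk v fun a b => sm v fun c => ent A a c * ent B c b

def mpow (v : ℕ) (A : List (List ℤ)) (p : ℕ) : List (List ℤ) :=
  (List.range p).foldl (fun M _ => mmul v M A) (mk v fun a b => if a = b then 1 else 0)

def clamp (lo hi x : ℤ) : ℤ := if x ≤ lo then lo else if hi ≤ x then hi else x

/-- the grid -/
def pQ (n : ℕ) : ℕ := 256 * n ^ 4

/-- the matrix of one round, scaled by `2 * pQ n ^ 2` -/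
def pmat (n v : ℕ) (M G : List (List ℤ)) : List (List ℤ) :=
  mk v fun a b => 2 * (pQ n : ℤ) ^ 2 * (if a = b then 1 + 2 * (n : ℤ) ^ 3 else 1) -
    2 * (n : ℤ) ^ 2 * (ent M a b * clamp 0 ((pQ n : ℤ) ^ 2) (ent G a b) +
      ent M b a * clamp 0 ((pQ n : ℤ) ^ 2) (ent G b a))

/-- add the rounded entries of `A / trace A` -/
def upd (n v : ℕ) (G A : List (List ℤ)) : List (List ℤ) :=
  mk v fun a b => ent G a b +
    clamp (-(pQ n : ℤ)) (pQ n) (idiv ((pQ n : ℤ) * ent A a b) (sm v fun c => ent A c c))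

def step (n v : ℕ) (M G : List (List ℤ)) : List (List ℤ) :=
  upd n v G (mpow v (pmat n v M G) (128 * n ^ 6))

def run (n v : ℕ) (M : List (List ℤ)) : List (List ℤ) :=
  (List.range (pQ n ^ 2)).foldl (fun G _ => step n v M G) (mk v fun _ _ => 0)

def outOf (n v : ℕ) (M G : List (List ℤ)) : ℤ :=
  sm v fun a => sm v fun b => ent G a b -
    2 * (n : ℤ) ^ 2 * (ent M a b * if ent G a b ≤ 0 then 0 else ent G a b)

def out (n v : ℕ) (M : List (List ℤ)) : ℤ := outOf n v M (run n v M)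

/-- the test; `M` is the matrix of edge multiplicities -/
def acc (n v k : ℕ) (M : List (List ℤ)) : Bool :=
  decide ((pQ n : ℤ) ^ 3 * (6 * n * k + sm v fun a => sm v fun b => ent M a b) ≤ 8 * n * out n v M)

/-- density matrices -/
def Dens {v : ℕ} (ρ : Matrix (Fin v) (Fin v) ℝ) : Prop := ρ.PosSemidef ∧ ρ.trace = 1

noncomputable def value (n : ℕ) {v : ℕ} (m : ℕ → ℕ → ℕ) (ρ : Matrix (Fin v) (Fin v) ℝ) : ℝ :=
  ∑ a, ∑ b, ρ a b - 2 * (n : ℝ) ^ 2 * ∑ a : Fin v, ∑ b : Fin v, (m a b : ℝ) * max (ρ a b) 0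

noncomputable def theta (n v : ℕ) (m : ℕ → ℕ → ℕ) : ℝ :=
  sSup {x | ∃ ρ : Matrix (Fin v) (Fin v) ℝ, Dens ρ ∧ x = value n m ρ}

theorem sm_eq (v : ℕ) (f : ℕ → ℤ) : sm v f = ∑ a : Fin v, f a := by
  rw [← Finset.sum_range]; rfl

theorem ent_mk {v a b : ℕ} (ha : a < v) (hb : b < v) (f : ℕ → ℕ → ℤ) : ent (mk v f) a b = f a b := by
  simp [ent, mk, List.getD_eq_getElem?_getD, ha, hb]

theorem ent_mk' (v : ℕ) (f : ℕ → ℕ → ℤ) (a b : Fin v) : ent (mk v f) a b = f a b :=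
  ent_mk a.2 b.2 f

theorem ent_mk_out {v a b : ℕ} (h : ¬ (a < v ∧ b < v)) (f : ℕ → ℕ → ℤ) :
    ent (mk v f) a b = 0 := by
  by_cases ha : a < v
  · have hb : ¬ b < v := fun hb => h ⟨ha, hb⟩
    simp [ent, mk, List.getD_eq_getElem?_getD, ha, hb]
  · simp [ent, mk, List.getD_eq_getElem?_getD, ha]

end Pool.Agent.Lib.MP_79d702_lc.Tar
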