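import Mathlib

/-!
Grothendieck's inequality with a crude constant.
-/

namespace Pool.Agent.Lib.MP_79d702_lc.Tar

open Finset

/-- the sign of a bit -/
def sg (b : Bool) : ℝ := if b then 1 else -1

theorem sum_sg_mul {m : ℕ} (x y : Fin m → ℝ) :
    ∑ e : Fin m → Bool, (∑ j, x j * sg (e j)) * ∑ j, y j * sg (e j) = 2 ^ m * ∑ j, x j * y j := by
  have h : ∀ i j : Fin m, ∑ e : Fin m → Bool, sg (e i) * sg (e j) = if i = j then 2 ^ m else 0 := by
    intro i j
    split_ifs with hij
    · subst hij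
      have : ∀ b, sg b * sg b = 1 := fun b => by cases b <;> simp [sg]
      simp [this]
    · refine sum_involution (fun e _ => Function.update e i (!e i)) (fun e _ => ?_)
        (fun e _ _ h => ?_) (fun _ _ => mem_univ _) fun e _ => by simp
      · rw [Function.update_self, Function.update_of_ne (Ne.symm hij)]
        cases e i <;> cases e j <;> simp [sg]
      · simpa using congrFun h i
  simp only [sum_mul_sum]
  rw [sum_comm, mul_sum]
  refine sum_congr rfl fun i _ => ?_
  rw [sum_comm]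
  simp only [mul_mul_mul_comm (x i), ← mul_sum, h]
  simp [mul_comm]

theorem sum_sg_four {m : ℕ} (x : Fin m → ℝ) (hx : ∑ j, x j ^ 2 ≤ 1) :
    ∑ e : Fin m → Bool, (∑ j, x j * sg (e j)) ^ 4 ≤ 2 ^ m * 81 := by
  have h1 : ∀ x : Fin m → ℝ, ∑ j, x j ^ 2 ≤ 1 →
      ∑ e : Fin m → Bool, Real.exp (∑ j, x j * sg (e j)) ≤ 2 ^ m * (5 / 3) := by
    intro x hx
    simp only [Real.exp_sum]
    rw [← Fintype.piFinset_univ, ← prod_univ_sum (fun _ : Fin m => (univ : Finset Bool))
      (fun j b => Real.exp (x j * sg b))]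
    calc _ ≤ ∏ j, 2 * Real.exp (x j ^ 2 / 2) := by
          refine prod_le_prod (fun j _ => by positivity) fun j _ => ?_
          have := Real.cosh_le_exp_half_sq (x j)
          rw [Real.cosh_eq] at this
          simp [sg]; linarith
      _ ≤ _ := by
          rw [prod_mul_distrib, ← Real.exp_sum, ← sum_div, prod_const, card_univ, Fintype.card_fin]
          refine mul_le_mul_of_nonneg_left ((Real.exp_le_exp.mpr (by linarith : _ ≤ (1 / 2 : ℝ))).trans
            (abs_le_of_sq_le_sq' ?_ (by norm_num)).2) (by positivity)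
          rw [← Real.exp_nat_mul]
          norm_num
          linarith [Real.exp_one_lt_d9]
  have h2 : ∀ z : ℝ, z ^ 4 ≤ 24 * (Real.exp z + Real.exp (-z)) := by
    intro z
    have h3 := Real.pow_div_factorial_le_exp |z| (abs_nonneg z) 4
    rw [show |z| ^ 4 = z ^ 4 from Even.pow_abs (by norm_num) z] at h3
    norm_num [Nat.factorial] at h3
    have := Real.exp_pos z
    have := Real.exp_pos (-z)
    rcases abs_cases z with h | h <;> rw [h.1] at h3 <;> linarith
  refine (sum_le_sum fun e _ => h2 _).trans ?_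
  have h4 := h1 (fun j => -x j) (by simpa using hx)
  simp only [neg_mul, sum_neg_distrib] at h4
  rw [← mul_sum, sum_add_distrib]
  have : (0 : ℝ) < 2 ^ m := by positivity
  linarith [h1 x hx]

theorem groth {V : Type} [Fintype V] (B : V → V → ℝ) {κ : ℝ}
    (h : ∀ s t : V → ℝ, (∀ a, |s a| ≤ 1) → (∀ b, |t b| ≤ 1) → ∑ a, ∑ b, B a b * (s a * t b) ≤ κ)
    {ι : Type} [Fintype ι] (x y : V → ι → ℝ) {c : ℝ} (hc : 0 < c)
    (hx : ∀ a, ∑ j, x a j ^ 2 ≤ c) (hy : ∀ b, ∑ j, y b j ^ 2 ≤ c) :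
    ∑ a, ∑ b, B a b * ∑ j, x a j * y b j ≤ 4096 * κ * c := by
  have κ0 : 0 ≤ κ := by simpa using h 0 0
  set S : Set ℝ := {r | ∃ (m : ℕ) (x y : V → Fin m → ℝ), (∀ a, ∑ j, x a j ^ 2 ≤ 1) ∧
    (∀ b, ∑ j, y b j ^ 2 ≤ 1) ∧ r = ∑ a, ∑ b, B a b * ∑ j, x a j * y b j} with hS
  have bd : BddAbove S := by
    refine ⟨∑ a, ∑ b, |B a b|, ?_⟩
    rintro r ⟨m, x, y, h1, h2, rfl⟩
    refine sum_le_sum fun a _ => sum_le_sum fun b _ => (le_abs_self _).trans ?_
    rw [abs_mul]
    refine mul_le_of_le_one_right (abs_nonneg _) ((sq_le_one_iff_abs_le_one _).mp ?_)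
    exact (sum_mul_sq_le_sq_mul_sq _ _ _).trans (mul_le_one₀ (h1 a) (by positivity) (h2 b))
  have sc : ∀ (ι : Type) [Fintype ι] (x y : V → ι → ℝ) (α β : ℝ), 0 < α → 0 < β →
      (∀ a, ∑ j, x a j ^ 2 ≤ α ^ 2) → (∀ b, ∑ j, y b j ^ 2 ≤ β ^ 2) →
      ∑ a, ∑ b, B a b * ∑ j, x a j * y b j ≤ α * β * sSup S := by
    intro ι _ x y α β hα hβ h1 h2
    have e := (Fintype.equivFin ι).symm
    have h3 := le_csSup bd ⟨_, fun a j => x a (e j) / α, fun b j => y b (e j) / β, fun a => by
      simp only [div_pow, ← sum_div]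
      rw [e.sum_comp fun j => x a j ^ 2, div_le_one (by positivity)]; exact h1 a, fun b => by
      simp only [div_pow, ← sum_div]
      rw [e.sum_comp fun j => y b j ^ 2, div_le_one (by positivity)]; exact h2 b, rfl⟩
    simp only [div_mul_div_comm] at h3
    simp only [← sum_div, ← mul_div_assoc] at h3
    rw [div_le_iff₀' (by positivity)] at h3
    refine le_trans (le_of_eq ?_) h3
    exact sum_congr rfl fun a _ => sum_congr rfl fun b _ => by
      rw [e.sum_comp fun j => x a j * y b j]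
  have main : sSup S ≤ 1296 * κ + sSup S / 2 := by
    refine csSup_le ⟨0, 0, 0, 0, by simp⟩ ?_
    rintro r ⟨m, x, y, h1, h2, rfl⟩
    set R : ℝ := Real.sqrt (2 ^ m) with hR
    have M0 : (0 : ℝ) < 2 ^ m := by positivity
    have R0 : 0 < R := Real.sqrt_pos.mpr M0
    have R2 : R ^ 2 = 2 ^ m := Real.sq_sqrt M0.le
    let F : (Fin m → ℝ) → (Fin m → Bool) → ℝ := fun x e => ∑ j, x j * sg (e j)
    let lo : ℝ → ℝ := fun z => if |z| ≤ 36 then z else 0
    let hi : ℝ → ℝ := fun z => if |z| ≤ 36 then 0 else z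
    have f1 : ∀ x : Fin m → ℝ, ∑ j, x j ^ 2 ≤ 1 → ∑ e, F x e ^ 2 ≤ R ^ 2 := by
      intro x hx
      simp only [sq] at hx
      simp only [F, sq (∑ _, _), sum_sg_mul, R2]
      exact mul_le_of_le_one_right M0.le hx
    have f2 : ∀ x : Fin m → ℝ, ∑ j, x j ^ 2 ≤ 1 → ∑ e, lo (F x e) ^ 2 ≤ R ^ 2 := fun x hx =>
      le_trans (sum_le_sum fun e _ => by simp only [lo]; split_ifs <;> nlinarith [sq_nonneg (F x e)])
        (f1 x hx)
    have f3 : ∀ x : Fin m → ℝ, ∑ j, x j ^ 2 ≤ 1 → ∑ e, hi (F x e) ^ 2 ≤ (R / 4) ^ 2 := by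
      intro x hx
      have h3 : ∑ e, hi (F x e) ^ 2 ≤ ∑ e, F x e ^ 4 / 1296 := by
        refine sum_le_sum fun e _ => ?_
        simp only [hi]
        split_ifs with h4
        · simpa using by positivity
        · have h5 := pow_le_pow_left₀ (by norm_num) (not_le.mp h4).le 2
          rw [sq_abs] at h5
          nlinarith [sq_nonneg (F x e)]
      rw [← sum_div] at h3
      rw [div_pow, R2]
      linarith [sum_sg_four x hx]
    have f4 : ∀ z : ℝ, |lo z / 36| ≤ 1 := by
      intro z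
      rw [abs_div, abs_of_pos (by norm_num : (0 : ℝ) < 36), div_le_one (by norm_num)]
      simp only [lo]
      split_ifs with h4
      · exact h4
      · simp
    have g1 := sc _ (fun a e => lo (F (x a) e)) (fun b e => hi (F (y b) e)) R (R / 4) R0
      (by positivity) (fun a => f2 _ (h1 a)) fun b => f3 _ (h2 b)
    have g2 := sc _ (fun a e => hi (F (x a) e)) (fun b e => F (y b) e) (R / 4) R
      (by positivity) R0 (fun a => f3 _ (h1 a)) fun b => f1 _ (h2 b)
    have g3 : ∑ a, ∑ b, B a b * ∑ e, lo (F (x a) e) * lo (F (y b) e) ≤ 2 ^ m * (1296 * κ) := by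
      simp only [mul_sum]
      rw [sum_congr rfl fun a _ => sum_comm, sum_comm]
      refine (sum_le_card_nsmul _ _ (1296 * κ) fun e _ => ?_).trans (by simp)
      have := h (fun a => lo (F (x a) e) / 36) (fun b => lo (F (y b) e) / 36) (fun _ => f4 _)
        fun _ => f4 _
      simp only [div_mul_div_comm] at this
      simp only [← sum_div, ← mul_div_assoc] at this
      linarith
    have g4 : 2 ^ m * ∑ a, ∑ b, B a b * ∑ j, x a j * y b j =
        ∑ a, ∑ b, B a b * ∑ e, lo (F (x a) e) * lo (F (y b) e) +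
        ∑ a, ∑ b, B a b * ∑ e, lo (F (x a) e) * hi (F (y b) e) +
        ∑ a, ∑ b, B a b * ∑ e, hi (F (x a) e) * F (y b) e := by
      simp only [← sum_add_distrib, ← mul_add]
      rw [mul_sum]
      refine sum_congr rfl fun a _ => ?_
      rw [mul_sum]
      refine sum_congr rfl fun b _ => ?_
      rw [mul_left_comm, ← sum_sg_mul]
      refine congrArg _ (sum_congr rfl fun e _ => ?_)
      simp only [lo, hi, F]
      split_ifs <;> ring
    refine le_of_mul_le_mul_left ?_ M0
    rw [g4, ← R2] at *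
    nlinarith
  have := sc ι x y _ _ (Real.sqrt_pos.mpr hc) (Real.sqrt_pos.mpr hc)
    (by rwa [Real.sq_sqrt hc.le]) (by rwa [Real.sq_sqrt hc.le])
  rw [Real.mul_self_sqrt hc.le] at this
  nlinarith

end Pool.Agent.Lib.MP_79d702_lc.Tar
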