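import Pool.Agent.Lib.MP_79d702_lc.Two.Host

/-!
A sparse random host graph whose random subgraphs have small cut norm distance to the average.
-/

namespace Pool.Agent.Lib.MP_79d702_lc.Tar

set_option linter.unusedSectionVars false

open Finset Pool.Agent.Lib.MP_79d702_lc.Neg Pool.Agent.Lib.MP_79d702_lc.Two

variable {V E : Type} [Fintype V] [DecidableEq V] [Fintype E] [DecidableEq E]

def Cut (g : E → V × V) (ω κ : ℝ) (y : Finset E) : Prop :=
  ∀ s t : V → ℝ, (∀ a, |s a| ≤ 1) → (∀ b, |t b| ≤ 1) →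
    (∑ a, s a) * (∑ b, t b) - ω * ∑ i ∈ y, s (g i).1 * t (g i).2 ≤ κ

namespace HostP

/-- the sign vector of a set -/
def sg (S : Finset V) (a : V) : ℝ := if a ∈ S then 1 else -1

theorem sg_mul (S T : Finset V) (a b : V) : sg S a * sg T b = 1 ∨ sg S a * sg T b = -1 := by
  unfold sg; split_ifs <;> norm_num

theorem form (f : E → V) (u : E → ℝ) (y : Finset E) (τ ω : ℝ) (s : V → ℝ) :
    (∑ a, s a) * τ - ω * ∑ i ∈ y, s (f i) * u i =
      ∑ a, s a * (τ - ω * ∑ i ∈ y, if f i = a then u i else 0) := by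
  have h : ∑ a, s a * ∑ i ∈ y, (if f i = a then u i else 0) = ∑ i ∈ y, s (f i) * u i := by
    simp only [mul_sum]
    rw [sum_comm]
    refine sum_congr rfl fun i _ => ?_
    simp [mul_ite]
  rw [← h, sum_mul, mul_sum, ← sum_sub_distrib]
  exact sum_congr rfl fun a _ => by ring

theorem red (f : E → V) (u : E → ℝ) (y : Finset E) (τ ω : ℝ) {s : V → ℝ} (hs : ∀ a, |s a| ≤ 1) :
    ∃ S : Finset V, (∑ a, s a) * τ - ω * ∑ i ∈ y, s (f i) * u i ≤
      (∑ a, sg S a) * τ - ω * ∑ i ∈ y, sg S (f i) * u i := by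
  classical
  refine ⟨univ.filter fun a => 0 ≤ τ - ω * ∑ i ∈ y, if f i = a then u i else 0, ?_⟩
  rw [form, form]
  refine sum_le_sum fun a _ => ?_
  have h := abs_le.mp (hs a)
  unfold sg
  split_ifs with h1
  · exact mul_le_mul_of_nonneg_right h.2 (mem_filter.mp h1).2
  · refine mul_le_mul_of_nonpos_right h.1 (le_of_lt (not_le.mp fun h2 => h1 ?_))
    exact mem_filter.mpr ⟨mem_univ _, h2⟩

theorem not_cut {g : E → V × V} {ω κ : ℝ} {y : Finset E} (h : ¬ Cut g ω κ y) :
    ∃ p : Finset V × Finset V, κ < (∑ a, sg p.1 a) * (∑ b, sg p.2 b) -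
      ω * ∑ i ∈ y, sg p.1 (g i).1 * sg p.2 (g i).2 := by
  unfold Cut at h
  push Not at h
  obtain ⟨s, t, hs, ht, h⟩ := h
  obtain ⟨S, hS⟩ := red (fun i => (g i).1) (fun i => t (g i).2) y (∑ b, t b) ω hs
  obtain ⟨T, hT⟩ := red (fun i => (g i).2) (fun i => sg S (g i).1) y (∑ a, sg S a) ω ht
  refine ⟨(S, T), h.trans_le (hS.trans ?_)⟩
  simp only [mul_comm (sg S _), mul_comm (∑ a, sg S a)]
  exact hT

theorem Ex_exp (β : ℝ) (c : E → ℝ) :
    Ex β (fun y => Real.exp (∑ i ∈ y, c i)) = ∏ i, (β * Real.exp (c i) + (1 - β)) := by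
  unfold Ex mu
  rw [← sum_prod_mem]
  refine sum_congr rfl fun y _ => ?_
  beta_reduce
  rw [Real.exp_sum, ← Fintype.prod_ite_mem y, ← prod_mul_distrib]
  exact prod_congr rfl fun i _ => by split_ifs <;> ring

theorem chern {n N : ℕ} (hn : Fintype.card V = n) (hn0 : 0 < n) (hE : Fintype.card E = N)
    {β θ : ℝ} (h0 : 0 ≤ β) (h1 : β ≤ 1) (t0 : 0 ≤ θ) (t1 : θ ≤ 1) (S T : Finset V) :
    ∑ g : E → V × V, Ex β (fun y => Real.exp (∑ i ∈ y, -θ * (sg S (g i).1 * sg T (g i).2))) ≤
      ((n : ℝ) ^ 2) ^ N *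
        Real.exp (N * (β * (θ ^ 2 - θ * ((∑ a, sg S a) * (∑ b, sg T b)) / n ^ 2))) := by
  have n0 : (0 : ℝ) < n := by exact_mod_cast hn0
  simp only [Ex_exp]
  rw [← Fintype.piFinset_univ, ← prod_univ_sum (fun _ : E => (univ : Finset (V × V)))
    (fun _ p => β * Real.exp (-θ * (sg S p.1 * sg T p.2)) + (1 - β)), prod_const, card_univ, hE,
    Real.exp_nat_mul, ← mul_pow]
  refine pow_le_pow_left₀ (sum_nonneg fun p _ => ?_) ?_ _
  · have := Real.exp_pos (-θ * (sg S p.1 * sg T p.2))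
    have : 0 ≤ 1 - β := by linarith
    positivity
  have h2 : ∀ p : V × V, β * Real.exp (-θ * (sg S p.1 * sg T p.2)) + (1 - β) ≤
      (1 + β * θ ^ 2) - β * θ * (sg S p.1 * sg T p.2) := by
    intro p
    have h3 : Real.exp (-θ * (sg S p.1 * sg T p.2)) ≤
        1 - θ * (sg S p.1 * sg T p.2) + θ ^ 2 := by
      have h4 : |-θ * (sg S p.1 * sg T p.2)| ≤ 1 := by
        rcases sg_mul S T p.1 p.2 with h | h <;> rw [h, abs_le] <;> constructor <;> linarith
      have h5 := (abs_le.mp (Real.abs_exp_sub_one_sub_id_le h4)).2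
      have h6 : (-θ * (sg S p.1 * sg T p.2)) ^ 2 = θ ^ 2 := by
        rcases sg_mul S T p.1 p.2 with h | h <;> rw [h] <;> ring
      linarith
    nlinarith [mul_le_mul_of_nonneg_left h3 h0]
  refine (sum_le_sum fun p _ => h2 p).trans ?_
  refine le_trans (le_of_eq ?_) (mul_le_mul_of_nonneg_left (Real.add_one_le_exp _) (by positivity))
  rw [sum_sub_distrib, ← mul_sum, Fintype.sum_prod_type (fun p : V × V => sg S p.1 * sg T p.2),
    ← sum_mul_sum]
  simp only [sum_const, card_univ, Fintype.card_prod, hn, nsmul_eq_mul]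
  push_cast
  field_simp
  ring

theorem bad_le {n D : ℕ} (hn : Fintype.card V = n) (hn0 : 0 < n) (hE : Fintype.card E = D * n)
    (hD : 1 ≤ D) {β κ : ℝ} (h0 : 0 < β) (h1 : β ≤ 1)
    (hκ0 : 0 ≤ κ) (hκ1 : κ ≤ (n : ℝ) ^ 2) (hk : 12 * (n : ℝ) ^ 4 ≤ κ ^ 2 * (β * D)) :
    ∑ g : E → V × V, Ex β (fun y => ind (¬ Cut g (n / (β * D)) κ y)) ≤
      ((n : ℝ) ^ 2) ^ (D * n) * (1 / 2) ^ n := by
  have n0 : (0 : ℝ) < n := by exact_mod_cast hn0
  have D0 : (0 : ℝ) < D := by exact_mod_cast hD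
  have hM : (0 : ℝ) < ((n : ℝ) ^ 2) ^ (D * n) := by positivity
  obtain ⟨θ, hθ⟩ : ∃ θ : ℝ, θ = κ / (2 * n ^ 2) := ⟨_, rfl⟩
  have t0 : 0 ≤ θ := by rw [hθ]; positivity
  have t1 : θ ≤ 1 := by
    rw [hθ, div_le_one (by positivity)]
    nlinarith
  calc _ ≤ ∑ g : E → V × V, ∑ p : Finset V × Finset V,
        Real.exp (θ * (β * D / n) * ((∑ a, sg p.1 a) * (∑ b, sg p.2 b) - κ)) *
          Ex β (fun y => Real.exp (∑ i ∈ y, -θ * (sg p.1 (g i).1 * sg p.2 (g i).2))) := by
        refine sum_le_sum fun g _ => ?_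
        simp only [← Ex_mul]
        rw [← Ex_sum]
        refine Ex_mono h0.le h1 fun y => ind_le_of (by positivity) fun h => ?_
        obtain ⟨p, hp⟩ := not_cut h
        refine le_trans ?_ (single_le_sum (f := fun p : Finset V × Finset V =>
          Real.exp (θ * (β * D / n) * ((∑ a, sg p.1 a) * (∑ b, sg p.2 b) - κ)) *
            Real.exp (∑ i ∈ y, -θ * (sg p.1 (g i).1 * sg p.2 (g i).2)))
          (fun _ _ => by positivity) (mem_univ p))
        rw [← Real.exp_add, ← mul_sum]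
        refine Real.one_le_exp ?_
        have h2 := mul_nonneg (by positivity : 0 ≤ θ * (β * D / n)) (sub_pos.mpr hp).le
        refine h2.trans_eq ?_
        field_simp
        ring
    _ ≤ ∑ p : Finset V × Finset V, ((n : ℝ) ^ 2) ^ (D * n) * (1 / 8) ^ n := by
        rw [sum_comm]
        refine sum_le_sum fun p _ => ?_
        rw [← mul_sum]
        refine (mul_le_mul_of_nonneg_left (chern hn hn0 hE h0.le h1 t0 t1 p.1 p.2)
          (Real.exp_pos _).le).trans ?_
        rw [mul_left_comm, ← Real.exp_add]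
        refine mul_le_mul_of_nonneg_left ?_ hM.le
        have e3 : θ * (β * D / n) * ((∑ a, sg p.1 a) * (∑ b, sg p.2 b) - κ) +
            (D * n : ℕ) * (β * (θ ^ 2 - θ * ((∑ a, sg p.1 a) * (∑ b, sg p.2 b)) / n ^ 2)) =
            - (κ ^ 2 * (β * D)) / (4 * n ^ 3) := by
          rw [hθ]
          push_cast
          field_simp
          ring
        have e4 : - (κ ^ 2 * (β * D)) / (4 * (n : ℝ) ^ 3) ≤ n * (-3) := by
          rw [div_le_iff₀ (by positivity)]
          linarith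
        rw [e3]
        refine (Real.exp_le_exp.mpr e4).trans ?_
        rw [Real.exp_nat_mul]
        refine pow_le_pow_left₀ (Real.exp_pos _).le ?_ _
        rw [Real.exp_neg, one_div]
        refine inv_anti₀ (by norm_num) ?_
        have h2 : (2 : ℝ) ≤ Real.exp 1 := by linarith [Real.add_one_le_exp 1]
        have h3 := pow_le_pow_left₀ (by norm_num) h2 3
        rw [← Real.exp_nat_mul] at h3
        norm_num at h3
        exact h3
    _ = _ := by
        rw [sum_const, card_univ, Fintype.card_prod, Fintype.card_finset, hn, nsmul_eq_mul,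
          mul_left_comm]
        push_cast
        rw [← mul_pow, ← mul_pow]
        norm_num

end HostP

theorem exists_hostP {n D W w : ℕ} (hn : Fintype.card V = n) (hE : Fintype.card E = D * n)
    (hD : 1 ≤ D) (hW : 32 * D ^ 2 * W ≤ n) (hw : w + 1 ≤ n) {β κ : ℝ} (h0 : 0 < β) (h1 : β ≤ 1)
    (hκ0 : 0 ≤ κ) (hκ1 : κ ≤ (n : ℝ) ^ 2) (hk : 12 * (n : ℝ) ^ 4 ≤ κ ^ 2 * (β * D)) :
    ∃ g : E → V × V, Host (epg g) W ∧
      Ex β (fun y => ind (¬ Cut g (n / (β * D)) κ y)) ≤ (1 / 2) ^ w := by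
  have n0 : (0 : ℝ) < n := by exact_mod_cast (by omega : 0 < n)
  have D1 : (1 : ℝ) ≤ D := by exact_mod_cast hD
  have hM : (0 : ℝ) < ((n : ℝ) ^ 2) ^ (D * n) := by positivity
  have b1 : ∑ g : E → V × V, ind (∃ U : Finset V, U.card ≤ W ∧ 2 * U.card < (ins (epg g) U).card) ≤
      ((n : ℝ) ^ 2) ^ (D * n) * (1 / 3) := by
    calc _ ≤ ∑ g : E → V × V, ∑ u ∈ Ico 1 (1 + W), ∑ U ∈ powersetCard u (univ : Finset V),
          ((n : ℝ) / (u * D)) ^ (ins (epg g) U).card / ((n : ℝ) / (u * D)) ^ (2 * u) := by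
          refine sum_le_sum fun g _ => ind_le_of (by positivity) ?_
          rintro ⟨U, hU, h⟩
          have hU1 : 1 ≤ U.card := by
            obtain ⟨e, he⟩ := card_pos.mp (Nat.zero_lt_of_lt h)
            exact card_pos.mpr ⟨_, mem_ins.mp he (mem_insert_self _ _)⟩
          refine le_trans ?_ (single_le_sum (f := fun u : ℕ => ∑ U ∈ powersetCard u univ,
            ((n : ℝ) / (u * D)) ^ (ins (epg g) U).card / ((n : ℝ) / (u * D)) ^ (2 * u))
            (fun _ _ => by positivity) (mem_Ico.mpr ⟨hU1, by omega⟩))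
          refine le_trans ?_ (single_le_sum (f := fun U' : Finset V =>
            ((n : ℝ) / (U.card * D)) ^ (ins (epg g) U').card / ((n : ℝ) / (U.card * D)) ^
              (2 * U.card)) (a := U) (fun _ _ => by positivity) (by simp))
          have u1 : (1 : ℝ) ≤ U.card := by exact_mod_cast hU1
          have e1 : (1 : ℝ) ≤ n / (U.card * D) := by
            rw [le_div_iff₀ (by positivity), one_mul]
            have : U.card * D ≤ n := le_trans (by
              rw [mul_comm]; exact Nat.mul_le_mul (by nlinarith) hU) hW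
            exact_mod_cast this
          rw [one_le_div (by positivity)]
          exact pow_le_pow_right₀ e1 h.le
      _ = ∑ u ∈ Ico 1 (1 + W), ∑ U ∈ powersetCard u (univ : Finset V),
          (∑ g : E → V × V, ((n : ℝ) / (u * D)) ^ (ins (epg g) U).card) /
            ((n : ℝ) / (u * D)) ^ (2 * u) := by
          rw [sum_comm]
          refine sum_congr rfl fun u _ => ?_
          rw [sum_comm]
          simp only [sum_div]
      _ ≤ ∑ u ∈ Ico 1 (1 + W), ((n : ℝ) ^ 2) ^ (D * n) * (1 / 4) ^ u := by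
          refine sum_le_sum fun u hu => ?_
          rw [mem_Ico] at hu
          have u0 : (0 : ℝ) < u := by exact_mod_cast hu.1
          refine (sum_le_card_nsmul _ _ (((n : ℝ) ^ 2) ^ (D * n) *
            (Real.exp u / ((n : ℝ) / (u * D)) ^ (2 * u))) fun U hU => ?_).trans ?_
          · rw [← mul_div_assoc]
            refine div_le_div_of_nonneg_right ((avg_pow hn (by omega) hE (by positivity) U).trans
              (mul_le_mul_of_nonneg_left (Real.exp_le_exp.mpr ?_) hM.le)) (by positivity)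
            rw [(mem_powersetCard.mp hU).2, div_le_iff₀ n0]
            have : (n : ℝ) / (u * D) * u ^ 2 * D = u * n := by field_simp
            have : (0 : ℝ) ≤ u ^ 2 * D := by positivity
            nlinarith
          · rw [card_powersetCard, card_univ, hn, nsmul_eq_mul, mul_left_comm]
            exact mul_le_mul_of_nonneg_left (sparse_term hu.1 hD
              (le_trans (Nat.mul_le_mul_left _ (by omega)) hW)) hM.le
      _ ≤ _ := by
          rw [← mul_sum]
          refine mul_le_mul_of_nonneg_left ((geo4 1 W).trans ?_) hM.le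
          have : (0 : ℝ) ≤ (1 / 4) ^ (1 + W) := by positivity
          linarith
  have b2 : ∑ g : E → V × V, Ex β (fun y => ind (¬ Cut g (n / (β * D)) κ y)) ≤
      ((n : ℝ) ^ 2) ^ (D * n) * (1 / 2) ^ (w + 1) :=
    (HostP.bad_le hn (by omega) hE hD h0 h1 hκ0 hκ1 hk).trans (mul_le_mul_of_nonneg_left
      (pow_le_pow_of_le_one (by norm_num) (by norm_num) hw) hM.le)
  obtain ⟨g, -, hg⟩ := exists_lt_of_sum_lt (s := univ) (f := fun g : E → V × V =>
    ind (∃ U : Finset V, U.card ≤ W ∧ 2 * U.card < (ins (epg g) U).card) + 2 ^ w *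
      Ex β (fun y => ind (¬ Cut g (n / (β * D)) κ y))) (g := fun _ => 1) (by
    rw [sum_add_distrib, ← mul_sum]
    have e1 := mul_le_mul_of_nonneg_left b2 (by positivity : (0 : ℝ) ≤ 2 ^ w)
    have e2 : (2 : ℝ) ^ w * (1 / 2) ^ (w + 1) = 1 / 2 := by
      rw [pow_succ, ← mul_assoc, ← mul_pow]; norm_num
    rw [mul_left_comm, e2] at e1
    simp only [sum_const, card_univ, Fintype.card_fun, Fintype.card_prod, hn, hE, nsmul_eq_mul]
    push_cast
    rw [← sq]
    linarith)
  have e0 : 0 ≤ Ex β (fun y => ind (¬ Cut g (n / (β * D)) κ y)) :=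
    Ex_nonneg h0.le h1 fun _ => ind_nonneg _
  refine ⟨g, ⟨fun e => insert_nonempty _ _, fun e => card_le_two, fun U hU => ?_⟩, ?_⟩
  · by_contra h
    rw [ind_pos ⟨U, hU, not_le.mp h⟩] at hg
    have : (0 : ℝ) ≤ 2 ^ w := by positivity
    nlinarith
  · have := ind_nonneg (∃ U : Finset V, U.card ≤ W ∧ 2 * U.card < (ins (epg g) U).card)
    rw [one_div, inv_pow, ← one_div, le_div_iff₀ (by positivity)]
    linarith

end Pool.Agent.Lib.MP_79d702_lc.Tar
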