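import Pool.Agent.Lib.MP_79d702_lc.Tar.Defs

/-!
The test runs in polynomial time.
-/

namespace Pool.Agent.Lib.MP_79d702_lc.Tar

open Pool.Agent.Shared.PolyTime

variable {α : Type} [N487b59b3 α]

theorem mk_pt {v : α → ℕ} {f : α → ℕ → ℕ → ℤ} (hv : PT v) (hv' : PB v)
    (hf : PT fun q : (α × ℕ) × ℕ => f q.1.1 q.1.2 q.2) : PT fun a => mk (v a) (f a) :=
  PT.map (h := fun a x => (List.range (v a)).map fun b => f a x b) (PT.range hv hv')
    (PT.map (h := fun (p : α × ℕ) b => f p.1 p.2 b)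
      (PT.range (hv.comp' (PT.fst PT.id')) (hv'.comp (PT.fst PT.id'))) hf)

theorem sm_pt {v : α → ℕ} {f : α → ℕ → ℤ} (hv : PT v) (hv' : PB v)
    (hf : PT fun q : α × ℕ => f q.1 q.2) : PT fun a => sm (v a) (f a) :=
  PT.intSum (PT.map (PT.range hv hv') hf)

theorem ent_pt {A : α → List (List ℤ)} {x y : α → ℕ} (hA : PT A) (hx : PT x) (hy : PT y) :
    PT fun a => ent (A a) (x a) (y a) :=
  PT.lgetD hy (PT.lgetD hx hA (PT.const [])) (PT.const 0)

theorem clamp_pt {l h x : α → ℤ} (hl : PT l) (hh : PT h) (hx : PT x) :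
    PT fun a => clamp (l a) (h a) (x a) :=
  PT.ite (PT.intLe hx hl) hl (PT.ite (PT.intLe hh hx) hh hx)

theorem intPow_pt {x : α → ℤ} (hx : PT x) (k : ℕ) : PT fun a => x a ^ k := by
  induction k with
  | zero => exact (PT.const 1).of_eq fun a => (pow_zero _).symm
  | succ k ih => exact (ih.intMul hx).of_eq fun a => (pow_succ _ _).symm

theorem pQ_pt {n : α → ℕ} (hn : PT n) : PT fun a => pQ (n a) :=
  (PT.const 256).mul (hn.pow (PT.const 4) (PB.const 4))

theorem pQ_pb {n : α → ℕ} (hn : PB n) : PB fun a => pQ (n a) := (PB.const 256).mul (hn.pow 4)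

theorem mmul_pt {v : α → ℕ} {A B : α → List (List ℤ)} (hv : PT v) (hv' : PB v) (hA : PT A)
    (hB : PT B) : PT fun a => mmul (v a) (A a) (B a) := by
  have p1 : PT fun q : (α × ℕ) × ℕ => q.1.1 := PT.fst (PT.fst PT.id')
  have p2 : PT fun q : ((α × ℕ) × ℕ) × ℕ => q.1.1.1 := PT.fst (PT.fst (PT.fst PT.id'))
  exact mk_pt hv hv' (sm_pt (hv.comp' p1) (hv'.comp p1)
    ((ent_pt (hA.comp' p2) (PT.snd (PT.fst (PT.fst PT.id'))) (PT.snd PT.id')).intMul
      (ent_pt (hB.comp' p2) (PT.snd PT.id') (PT.snd (PT.fst PT.id')))))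

/-- A square matrix of size `v` with entries bounded by `c`. -/
def Bd (v c : ℕ) (A : List (List ℤ)) : Prop :=
  (∃ f, A = mk v f) ∧ ∀ a b, (ent A a b).natAbs ≤ c

theorem Bd.of {v c : ℕ} {f : ℕ → ℕ → ℤ} (h : ∀ a b, (f a b).natAbs ≤ c) : Bd v c (mk v f) := by
  refine ⟨⟨f, rfl⟩, fun a b => ?_⟩
  by_cases hab : a < v ∧ b < v
  · rw [ent_mk hab.1 hab.2]
    exact h a b
  · rw [ent_mk_out hab]
    exact Nat.zero_le _

theorem Bd.sz_le {v c w : ℕ} {A : List (List ℤ)} (h : Bd v c A) (hw : c < 2 ^ w) :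
    sz A ≤ v * (2 * (v * (2 * (3 * w + 1) + 1)) + 1) := by
  obtain ⟨⟨f, rfl⟩, h⟩ := h
  have h1 : ∀ r ∈ mk v f, sz r ≤ v * (2 * (3 * w + 1) + 1) := by
    intro r hr
    obtain ⟨a, ha, rfl⟩ := List.mem_map.1 hr
    have h2 : ∀ z ∈ (List.range v).map fun b => f a b, sz z ≤ 3 * w + 1 := by
      intro z hz
      obtain ⟨b, hb, rfl⟩ := List.mem_map.1 hz
      have := h a b
      rw [ent_mk (List.mem_range.1 ha) (List.mem_range.1 hb)] at this
      exact sz_int_le (this.trans_lt hw)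
    simpa using sz_list_le h2
  simpa [mk] using sz_list_le h1

theorem ent_le (A : List (List ℤ)) (a b : ℕ) : (ent A a b).natAbs ≤ 2 ^ sz A := by
  unfold ent
  rw [List.getD_eq_getElem?_getD, List.getD_eq_getElem?_getD]
  rcases h1 : A[a]? with _ | r
  · simp
  · rw [Option.getD_some]
    rcases h2 : r[b]? with _ | z
    · simp
    · have h3 := sz_mem (List.mem_of_getElem? h1)
      have h4 := sz_mem (List.mem_of_getElem? h2)
      exact (natAbs_lt_sz z).le.trans (Nat.pow_le_pow_right two_pos (by omega))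

theorem sm_le {v c : ℕ} {f : ℕ → ℤ} (h : ∀ a, (f a).natAbs ≤ c) : (sm v f).natAbs ≤ v * c := by
  unfold sm
  induction v with
  | zero => simp
  | succ v ih =>
    rw [List.range_succ, List.map_append, List.sum_append, List.map_singleton, List.sum_singleton,
      Nat.succ_mul]
    exact (Int.natAbs_add_le _ _).trans (Nat.add_le_add ih (h v))

theorem mpow_bd (v : ℕ) (A : List (List ℤ)) (i : ℕ) :
    Bd v (2 ^ ((v + sz A) * i))
      ((fun M => mmul v M A)^[i] (mk v fun a b => if a = b then 1 else 0)) := by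
  induction i with
  | zero => exact Bd.of fun a b => by split_ifs <;> simp
  | succ i ih =>
    rw [Function.iterate_succ_apply']
    refine Bd.of fun a b => (sm_le (c := 2 ^ ((v + sz A) * i) * 2 ^ sz A) fun c => ?_).trans ?_
    · rw [Int.natAbs_mul]
      exact Nat.mul_le_mul (ih.2 a c) (ent_le A c b)
    · rw [Nat.mul_succ, pow_add, pow_add, mul_left_comm]
      exact Nat.mul_le_mul_left _ (Nat.mul_le_mul_right _ Nat.lt_two_pow_self.le)

theorem mpow_pt {v p : α → ℕ} {A : α → List (List ℤ)} (hv : PT v) (hv' : PB v) (hA : PT A)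
    (hp : PT p) (hp' : PB p) : PT fun a => mpow (v a) (A a) (p a) := by
  have p1 : PT fun q : α × List (List ℤ) => q.1 := PT.fst PT.id'
  have h0 : PT fun a => mk (v a) fun x y => if x = y then (1 : ℤ) else 0 :=
    mk_pt (f := fun _ x y => if x = y then (1 : ℤ) else 0) hv hv'
      (PT.ite (PT.decide_eq (PT.snd (PT.fst PT.id')) (PT.snd PT.id')) (PT.const 1) (PT.const 0))
  have hw : PB fun a => (v a + sz (A a)) * p a + 1 :=
    ((hv'.add (PB.sz hA)).mul hp').add (PB.const 1)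
  have := PT.iterate (f := fun a M => mmul (v a) M (A a))
    (mmul_pt (hv.comp' p1) (hv'.comp p1) (PT.snd PT.id') (hA.comp' p1)) hp hp' h0
    (B := fun a => v a * (2 * (v a * (2 * (3 * ((v a + sz (A a)) * p a + 1) + 1) + 1)) + 1))
    (by fun_prop) fun a i hi => (mpow_bd (v a) (A a) i).sz_le
      (Nat.pow_lt_pow_right one_lt_two (Nat.lt_succ_of_le (Nat.mul_le_mul_left _ hi)))
  exact this.of_eq fun a => by rw [mpow, PT.foldl_const, List.length_range]

theorem pmat_pt {n v : α → ℕ} {M G : α → List (List ℤ)} (hn : PT n) (hv : PT v) (hv' : PB v)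
    (hM : PT M) (hG : PT G) : PT fun a => pmat (n a) (v a) (M a) (G a) := by
  have p1 : PT fun q : (α × ℕ) × ℕ => q.1.1 := PT.fst (PT.fst PT.id')
  have px : PT fun q : (α × ℕ) × ℕ => q.1.2 := PT.snd (PT.fst PT.id')
  have py : PT fun q : (α × ℕ) × ℕ => q.2 := PT.snd PT.id'
  have hN : PT fun q : (α × ℕ) × ℕ => (n q.1.1 : ℤ) := (hn.comp' p1).natCast
  have hQ : PT fun q : (α × ℕ) × ℕ => (pQ (n q.1.1) : ℤ) ^ 2 :=
    intPow_pt (pQ_pt (hn.comp' p1)).natCast 2
  exact mk_pt hv hv' ((((PT.const 2).intMul hQ).intMul (PT.ite (PT.decide_eq px py)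
    ((PT.const 1).intAdd ((PT.const 2).intMul (intPow_pt hN 3))) (PT.const 1))).intSub
    (((PT.const 2).intMul (intPow_pt hN 2)).intMul
      (((ent_pt (hM.comp' p1) px py).intMul
        (clamp_pt (PT.const 0) hQ (ent_pt (hG.comp' p1) px py))).intAdd
      ((ent_pt (hM.comp' p1) py px).intMul
        (clamp_pt (PT.const 0) hQ (ent_pt (hG.comp' p1) py px))))))

theorem upd_pt {n v : α → ℕ} {G A : α → List (List ℤ)} (hn : PT n) (hv : PT v) (hv' : PB v)
    (hG : PT G) (hA : PT A) : PT fun a => upd (n a) (v a) (G a) (A a) := by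
  have p1 : PT fun q : (α × ℕ) × ℕ => q.1.1 := PT.fst (PT.fst PT.id')
  have px : PT fun q : (α × ℕ) × ℕ => q.1.2 := PT.snd (PT.fst PT.id')
  have py : PT fun q : (α × ℕ) × ℕ => q.2 := PT.snd PT.id'
  have hQ : PT fun q : (α × ℕ) × ℕ => (pQ (n q.1.1) : ℤ) := (pQ_pt (hn.comp' p1)).natCast
  have hT : PT fun a => sm (v a) fun c => ent (A a) c c :=
    sm_pt (f := fun a c => ent (A a) c c) hv hv'
      (ent_pt (hA.comp' (PT.fst PT.id')) (PT.snd PT.id') (PT.snd PT.id'))
  exact mk_pt hv hv' ((ent_pt (hG.comp' p1) px py).intAdd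
    (clamp_pt hQ.intNeg hQ ((hQ.intMul (ent_pt (hA.comp' p1) px py)).idiv (hT.comp' p1))))

theorem step_pt {n v : α → ℕ} {M G : α → List (List ℤ)} (hn : PT n) (hn' : PB n) (hv : PT v)
    (hv' : PB v) (hM : PT M) (hG : PT G) : PT fun a => step (n a) (v a) (M a) (G a) :=
  upd_pt hn hv hv' hG (mpow_pt hv hv' (pmat_pt hn hv hv' hM hG)
    ((PT.const 128).mul (hn.pow (PT.const 6) (PB.const 6))) ((PB.const 128).mul (hn'.pow 6)))

theorem clamp_le (q : ℕ) (x : ℤ) : (clamp (-(q : ℤ)) q x).natAbs ≤ q := by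
  unfold clamp
  split_ifs <;> omega

theorem run_bd (n v : ℕ) (M : List (List ℤ)) (i : ℕ) :
    Bd v (i * pQ n) ((fun G => step n v M G)^[i] (mk v fun _ _ => 0)) := by
  induction i with
  | zero => exact Bd.of fun a b => by simp
  | succ i ih =>
    rw [Function.iterate_succ_apply', Nat.succ_mul]
    exact Bd.of fun a b =>
      (Int.natAbs_add_le _ _).trans (Nat.add_le_add (ih.2 a b) (clamp_le _ _))

theorem run_pt {n v : α → ℕ} {M : α → List (List ℤ)} (hn : PT n) (hn' : PB n) (hv : PT v)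
    (hv' : PB v) (hM : PT M) : PT fun a => run (n a) (v a) (M a) := by
  have p1 : PT fun q : α × List (List ℤ) => q.1 := PT.fst PT.id'
  have h0 : PT fun a => mk (v a) fun _ _ => (0 : ℤ) :=
    mk_pt (f := fun _ _ _ => (0 : ℤ)) hv hv' (PT.const 0)
  have hq := pQ_pb hn'
  have := PT.iterate (f := fun a G => step (n a) (v a) (M a) G)
    (step_pt (hn.comp' p1) (hn'.comp p1) (hv.comp' p1) (hv'.comp p1) (hM.comp' p1)
      (PT.snd PT.id')) ((pQ_pt hn).pow (PT.const 2) (PB.const 2)) (hq.pow 2) h0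
    (B := fun a => v a * (2 * (v a * (2 * (3 * (pQ (n a) ^ 2 * pQ (n a)) + 1) + 1)) + 1))
    (hv'.mul (((PB.const 2).mul (hv'.mul (((PB.const 2).mul
      (((PB.const 3).mul ((hq.pow 2).mul hq)).add (PB.const 1))).add (PB.const 1)))).add
      (PB.const 1)))
    fun a i hi => (run_bd (n a) (v a) (M a) i).sz_le
      ((Nat.mul_le_mul_right _ hi).trans_lt Nat.lt_two_pow_self)
  exact this.of_eq fun a => by rw [run, PT.foldl_const, List.length_range]

theorem sm2_pt {v : α → ℕ} {f : α → ℕ → ℕ → ℤ} (hv : PT v) (hv' : PB v)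
    (hf : PT fun q : (α × ℕ) × ℕ => f q.1.1 q.1.2 q.2) :
    PT fun a => sm (v a) fun x => sm (v a) fun y => f a x y :=
  sm_pt (f := fun a x => sm (v a) fun y => f a x y) hv hv'
    (sm_pt (f := fun (p : α × ℕ) y => f p.1 p.2 y) (hv.comp' (PT.fst PT.id'))
      (hv'.comp (PT.fst PT.id')) hf)

theorem outOf_pt {n v : α → ℕ} {M G : α → List (List ℤ)} (hn : PT n) (hv : PT v) (hv' : PB v)
    (hM : PT M) (hG : PT G) : PT fun a => outOf (n a) (v a) (M a) (G a) := by
  have p1 : PT fun q : (α × ℕ) × ℕ => q.1.1 := PT.fst (PT.fst PT.id')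
  have px : PT fun q : (α × ℕ) × ℕ => q.1.2 := PT.snd (PT.fst PT.id')
  have py : PT fun q : (α × ℕ) × ℕ => q.2 := PT.snd PT.id'
  have hE := ent_pt (hG.comp' p1) px py
  exact sm2_pt hv hv' (hE.intSub (((PT.const 2).intMul (intPow_pt (hn.comp' p1).natCast 2)).intMul
    ((ent_pt (hM.comp' p1) px py).intMul (PT.ite (PT.intLe hE (PT.const 0)) (PT.const 0) hE))))

theorem acc_pt {n v k : α → ℕ} {M : α → List (List ℤ)} (hn : PT n) (hn' : PB n) (hv : PT v)
    (hv' : PB v) (hk : PT k) (hM : PT M) : PT fun a => acc (n a) (v a) (k a) (M a) :=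
  PT.intLe ((intPow_pt (pQ_pt hn).natCast 3).intMul
    ((((PT.const 6).intMul hn.natCast).intMul hk.natCast).intAdd
      (sm2_pt (f := fun a x y => ent (M a) x y) hv hv'
        (ent_pt (hM.comp' (PT.fst (PT.fst PT.id'))) (PT.snd (PT.fst PT.id')) (PT.snd PT.id')))))
    (((PT.const 8).intMul hn.natCast).intMul (outOf_pt hn hv hv' hM (run_pt hn hn' hv hv' hM)))

end Pool.Agent.Lib.MP_79d702_lc.Tar
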