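import Pool.Agent.Lib.MP_79d702_lc.Tar.Approx
import Pool.Agent.Lib.MP_79d702_lc.Tar.PTime
import Pool.Agent.Lib.MP_79d702_lc.Two.Layout

/-!
The language: the layout of the clique language, with the semidefinite test in place of the clique.
-/

namespace Pool.Agent.Lib.MP_79d702_lc.Tar

open Finset Pool.Agent.Lib.MP_79d702_lc.Neg Pool.Agent.Lib.MP_79d702_lc.Two
  Pool.Agent.Shared.PolyTime

/-- `u` is a candidate for the end `c` of slot `i` -/
def cand (x : List Bool) (v i c u : ℕ) : Bool :=
  (List.range (Nat.size v)).all fun b => x.getD (x.length / 4 +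
    (((i * 2 + c) * Nat.size v + b) * 2 + u / 2 ^ min b x.length % 2)) false

def cnt (x : List Bool) (v i c : ℕ) : ℕ := (List.range v).countP fun u => cand x v i c u

def free (x : List Bool) (v N j i : ℕ) : Bool :=
  x.getD (x.length / 2 + j * N + i) false || decide (2 ≤ cnt x v i 0) || decide (2 ≤ cnt x v i 1)

def mlt (x : List Bool) (v N j a b : ℕ) : ℕ :=
  (List.range N).countP fun i => !free x v N j i && cand x v i 0 a && cand x v i 1 b

def blk (x : List Bool) (v N k j : ℕ) : Bool :=
  decide (1 ≤ v) && decide (3 * v < x.length / 4) && decide (3 * N + 1 < x.length / 4) &&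
    decide (3 * k + 2 < x.length / 4) && x.getD (3 * v) false && x.getD (3 * N + 1) false &&
    x.getD (3 * k + 2) false &&
    ((List.range N).all fun i => free x v N j i ||
      (decide (1 ≤ cnt x v i 0) && decide (1 ≤ cnt x v i 1))) &&
    acc x.length v k (mk v fun a b => mlt x v N j a b)

def lang (x : List Bool) : Bool :=
  (List.range x.length).any fun v => (List.range x.length).any fun N =>
    (List.range x.length).any fun k => (List.range x.length).any fun j =>
      blk x (min v x.length) (min N x.length) k j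

section pt

variable {α : Type} [N487b59b3 α] {x : α → List Bool} {v N k j i c u : α → ℕ}

@[fun_prop] theorem cand_pt (hx : PT x) (hv : PT v) (hi : PT i) (hc : PT c) (hu : PT u) :
    PT fun a => cand (x a) (v a) (i a) (c a) (u a) := by
  unfold cand; fun_prop

theorem cnt_pt (hx : PT x) (hv : PT v) (hv' : PB v) (hi : PT i) (hc : PT c) :
    PT fun a => cnt (x a) (v a) (i a) (c a) := by
  unfold cnt; fun_prop

theorem free_pt (hx : PT x) (hv : PT v) (hv' : PB v) (hN : PT N) (hj : PT j) (hi : PT i) :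
    PT fun a => free (x a) (v a) (N a) (j a) (i a) := by
  have h0 := cnt_pt hx hv hv' hi (PT.const 0)
  have h1 := cnt_pt hx hv hv' hi (PT.const 1)
  unfold free; fun_prop

theorem mlt_pt (hx : PT x) (hv : PT v) (hv' : PB v) (hN : PT N) (hN' : PB N) (hj : PT j)
    (hc : PT c) (hu : PT u) : PT fun a => mlt (x a) (v a) (N a) (j a) (c a) (u a) := by
  have f : PT (Prod.fst : α × ℕ → α) := by fun_prop
  have h0 := free_pt (hx.comp' f) (hv.comp' f) (hv'.comp f) (hN.comp' f) (hj.comp' f)
    (PT.snd PT.id')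
  unfold mlt
  exact PT.countP (PT.range hN hN') (PT.and (PT.and (PT.not h0) (by fun_prop)) (by fun_prop))

theorem blk_pt (hx : PT x) (hv : PT v) (hv' : PB v) (hN : PT N) (hN' : PB N) (hk : PT k)
    (hj : PT j) : PT fun a => blk (x a) (v a) (N a) (k a) (j a) := by
  have f : PT (Prod.fst : α × ℕ → α) := by fun_prop
  have g : PT fun q : (α × ℕ) × ℕ => q.1.1 := by fun_prop
  have h0 := free_pt (hx.comp' f) (hv.comp' f) (hv'.comp f) (hN.comp' f) (hj.comp' f)
    (PT.snd PT.id')
  have h1 := cnt_pt (hx.comp' f) (hv.comp' f) (hv'.comp f) (PT.snd PT.id') (PT.const 0)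
  have h2 := cnt_pt (hx.comp' f) (hv.comp' f) (hv'.comp f) (PT.snd PT.id') (PT.const 1)
  have h3 := mlt_pt (hx.comp' g) (hv.comp' g) (hv'.comp g) (hN.comp' g) (hN'.comp g) (hj.comp' g)
    (PT.snd (PT.fst PT.id')) (PT.snd PT.id')
  unfold blk
  exact PT.and (PT.and (by fun_prop) (PT.all (PT.range hN hN') (PT.or h0 (PT.and
    (PT.decide_le (PT.const 1) h1) (PT.decide_le (PT.const 1) h2)))))
    (acc_pt hx.length (PB.length hx) hv hv' hk (mk_pt hv hv' h3.natCast))

end pt

theorem lang_pt : PT lang := by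
  unfold lang
  refine PT.any (by fun_prop) (PT.any (by fun_prop) (PT.any (by fun_prop) (PT.any (by fun_prop) ?_)))
  exact blk_pt (by fun_prop) (by fun_prop) (by fun_prop) (by fun_prop) (by fun_prop) (by fun_prop)
    (by fun_prop)

theorem lang_P : lang ∈ N68a2faeb.P := PT.isPolyTime lang_pt

theorem lang_NP : lang ∈ N68a2faeb.NP :=
  ⟨0, fun p => lang p.1, PT.isPolyTime (lang_pt.comp' (PT.fst PT.id')),
    fun _ => ⟨fun h => ⟨[], by simp, h⟩, fun ⟨_, _, h⟩ => h⟩⟩

theorem lang_iff (x : List Bool) :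
    lang x = true ↔ ∃ v N k j, j < x.length ∧ blk x v N k j = true := by
  simp only [lang, List.any_eq_true, List.mem_range]
  constructor
  · rintro ⟨v, -, N, -, k, -, j, hj, h⟩
    exact ⟨_, _, k, j, hj, h⟩
  · rintro ⟨v, N, k, j, hj, h⟩
    have h' := h
    simp only [blk, Bool.and_eq_true, decide_eq_true_eq] at h'
    refine ⟨v, by omega, N, by omega, k, by omega, j, hj, ?_⟩
    rwa [min_eq_left (by omega), min_eq_left (by omega)]

theorem cand_iff {x : List Bool} {v : ℕ} (hv : v ≤ x.length) (i c u : ℕ) :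
    cand x v i c u = true ↔ ∀ b < Nat.size v, x.getD (rail x.length v i c b u) false = true := by
  unfold cand rail
  simp only [List.all_eq_true, List.mem_range]
  refine forall_congr' fun b => imp_congr_right fun hb => ?_
  rw [min_eq_left (by have := size_le_self v; omega)]

theorem sum_mlt (x : List Bool) (v N j : ℕ) :
    ∑ a : Fin v, ∑ b : Fin v, mlt x v N j a b ≤ N := by
  have h : ∀ a b : Fin v, mlt x v N j a b = ∑ i : Fin N, if free x v N j i = true then 0 else
      (if cand x v i 0 a = true then 1 else 0) * if cand x v i 1 b = true then 1 else 0 := by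
    intro a b
    rw [mlt, countP_range, card_filter]
    refine sum_congr rfl fun i _ => ?_
    cases free x v N j i <;> cases cand x v i 0 a <;> cases cand x v i 1 b <;> rfl
  simp only [h]
  rw [sum_congr rfl fun a _ => sum_comm, sum_comm]
  refine (sum_le_card_nsmul _ _ 1 fun i _ => ?_).trans (by simp)
  by_cases hf : free x v N j i = true
  · simp [hf]
  · simp only [hf, Bool.false_eq_true, if_false]
    rw [← sum_mul_sum, ← card_filter, ← card_filter, ← countP_range, ← countP_range]
    simp only [free, Bool.or_eq_true, decide_eq_true_eq, not_or, not_le] at hf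
    exact mul_le_one' (Nat.le_of_lt_succ hf.1.2) (Nat.le_of_lt_succ hf.2)

theorem blk_mono {x y : List Bool} (hl : x.length = y.length)
    (h : ∀ p, x.getD p false = true → y.getD p false = true) {v N k j : ℕ}
    (hx : blk x v N k j = true) : blk y v N k j = true := by
  have c1 : ∀ i c u, cand x v i c u = true → cand y v i c u = true := by
    intro i c u
    simp only [cand, List.all_eq_true, hl]
    exact fun h' b hb => h _ (h' b hb)
  have c2 : ∀ i c, cnt x v i c ≤ cnt y v i c := fun i c =>
    List.countP_mono_left fun u _ => c1 i c u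
  have c3 : ∀ i, free x v N j i = true → free y v N j i = true := by
    intro i
    simp only [free, Bool.or_eq_true, decide_eq_true_eq, hl]
    exact Or.imp (Or.imp (h _) fun h' => h'.trans (c2 i 0)) fun h' => h'.trans (c2 i 1)
  have c4 : ∀ i c, ∀ u < v, 1 ≤ cnt x v i c → cnt y v i c < 2 → cand y v i c u = true →
      cand x v i c u = true := by
    intro i c u hu h1 h2 h3
    rw [cnt, countP_range] at h1 h2
    obtain ⟨u', hu'⟩ := card_pos.mp h1
    have h4 := (mem_filter.mp hu').2
    have := card_le_one.mp (Nat.le_of_lt_succ h2) ⟨u, hu⟩ (by simpa using h3) u'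
      (by simpa using c1 _ _ _ h4)
    rw [← this] at h4
    exact h4
  simp only [blk, Bool.and_eq_true, decide_eq_true_eq, List.all_eq_true, List.mem_range,
    Bool.or_eq_true] at hx ⊢
  obtain ⟨⟨⟨⟨⟨⟨⟨⟨a0, a1⟩, a2⟩, a3⟩, a5⟩, a6⟩, a7⟩, a8⟩, a9⟩ := hx
  rw [← hl]
  refine ⟨⟨⟨⟨⟨⟨⟨⟨a0, a1⟩, a2⟩, a3⟩, h _ a5⟩, h _ a6⟩, h _ a7⟩, fun i hi => (a8 i hi).imp (c3 i)
    fun h' => ⟨h'.1.trans (c2 i 0), h'.2.trans (c2 i 1)⟩⟩,
    acc_mono a0 (by omega) ((sum_mlt x v N j).trans (by omega)) (fun a ha b hb => ?_) a9⟩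
  refine List.countP_mono_left fun i hi => ?_
  simp only [Bool.and_eq_true, Bool.not_eq_true', ← Bool.not_eq_true]
  rintro ⟨⟨b1, b2⟩, b3⟩
  have b4 : ¬ free x v N j i = true := fun h' => b1 (c3 i h')
  have b5 := (a8 i (List.mem_range.mp hi)).resolve_left b4
  simp only [free, Bool.or_eq_true, decide_eq_true_eq, not_or, not_le] at b1
  exact ⟨⟨b4, c4 i 0 a ha b5.1 b1.1.2 b2⟩, c4 i 1 b hb b5.2 b1.2 b3⟩

theorem lang_mono : MonotoneSlices lang := by
  intro n x y hxy
  rw [Bool.le_iff_imp]
  simp only [lang_iff, List.length_ofFn]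
  rintro ⟨v, N, k, j, hj, h⟩
  exact ⟨v, N, k, j, hj, blk_mono (by simp) (getD_mono hxy) h⟩

end Pool.Agent.Lib.MP_79d702_lc.Tar
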