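import Pool.Agent.Lib.MP_79d702_lc.Tar.Power
import Pool.Agent.Lib.MP_79d702_lc.Tar.Groth
import Pool.Agent.Lib.MP_79d702_lc.Tar.HostP

/-!
Small cut norm distance makes the relaxation small.
-/

namespace Pool.Agent.Lib.MP_79d702_lc.Tar

open Finset

/-- multiplicity of the pair `(a, b)` among the slots of `y` -/
def mult {v N : ℕ} (g : Fin N → Fin v × Fin v) (y : Finset (Fin N)) (a b : ℕ) : ℕ :=
  (y.filter fun i => ((g i).1 : ℕ) = a ∧ ((g i).2 : ℕ) = b).card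

theorem sum_mult {v N : ℕ} (g : Fin N → Fin v × Fin v) (y : Finset (Fin N))
    (f : Fin v → Fin v → ℝ) :
    ∑ a : Fin v, ∑ b : Fin v, (mult g y a b : ℝ) * f a b = ∑ i ∈ y, f (g i).1 (g i).2 := by
  classical
  simp only [mult, card_filter, Nat.cast_sum, sum_mul, Fin.val_inj, Nat.cast_ite, Nat.cast_one,
    Nat.cast_zero, ite_mul, one_mul, zero_mul]
  rw [sum_congr rfl fun a _ => sum_comm, sum_comm]
  refine sum_congr rfl fun i _ => ?_
  simp only [ite_and, sum_ite_irrel, sum_ite_eq, mem_univ, if_true, sum_const_zero]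

theorem theta_cut {n v N k : ℕ} (hv : 1 ≤ v) (hk : 1 ≤ k) {g : Fin N → Fin v × Fin v}
    {y : Finset (Fin N)} {ω κ : ℝ} (hω0 : 0 ≤ ω) (hω : ω ≤ (n : ℝ) ^ 2)
    (hκ : 2 ^ 18 * κ ≤ (k : ℝ) ^ 2) (h : Cut g ω κ y) : theta n v (mult g y) ≤ k / 2 := by
  classical
  refine theta_le hv fun ρ hρ => ?_
  obtain ⟨r, hr, h1⟩ := hρ.gram
  have k0 : (0 : ℝ) < k := by exact_mod_cast hk
  set U : Finset (Fin v) := univ.filter fun a => 8 / (k : ℝ) < ∑ j, r a j ^ 2 with hU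
  have hU1 : ∑ a ∈ U, ∑ j, r a j ^ 2 ≤ 1 :=
    h1 ▸ sum_le_sum_of_subset_of_nonneg (subset_univ _) fun a _ _ => by positivity
  have hU2 : (U.card : ℝ) ≤ k / 8 := by
    have := card_nsmul_le_sum U (fun a => ∑ j, r a j ^ 2) (8 / (k : ℝ))
      fun a ha => (mem_filter.1 ha).2.le
    rw [nsmul_eq_mul, ← mul_div_assoc, div_le_iff₀ k0] at this
    nlinarith
  obtain ⟨x, hx⟩ : ∃ x : Fin v → Fin v → ℝ, ∀ a j, x a j = if a ∈ U then 0 else r a j :=
    ⟨_, fun _ _ => rfl⟩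
  have x1 : ∀ a, ∑ j, x a j ^ 2 ≤ 8 / (k : ℝ) := fun a => by
    by_cases ha : a ∈ U
    · simp only [hx, if_pos ha, zero_pow two_ne_zero, sum_const_zero]
      positivity
    · simp only [hx, if_neg ha]
      exact not_lt.1 fun h => ha (mem_filter.2 ⟨mem_univ _, h⟩)
  have x2 : ∀ a b, ∑ j, x a j * x b j ≤ max (ρ a b) 0 := fun a b => by
    by_cases ha : a ∈ U
    · simp [hx, ha]
    · by_cases hb : b ∈ U
      · simp [hx, hb]
      · simp only [hx, if_neg ha, if_neg hb, ← hr]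
        exact le_max_left _ _
  have sq : ∀ z : Fin v → Fin v → ℝ, ∑ a, ∑ b, ∑ j, z a j * z b j = ∑ j, (∑ a, z a j) ^ 2 := by
    intro z
    rw [sum_congr rfl fun a _ => sum_comm, sum_comm]
    simp only [pow_two, sum_mul_sum]
  have e1 : ∑ a, ∑ b, ρ a b ≤ 2 * ∑ a, ∑ b, ∑ j, x a j * x b j + k / 4 := by
    simp only [hr, sq]
    have k1 : ∀ j, (∑ a, r a j) ^ 2 ≤
        2 * (∑ a, x a j) ^ 2 + 2 * (U.card * ∑ a ∈ U, r a j ^ 2) := fun j => by
      have k2 : ∑ a, r a j = ∑ a, x a j + ∑ a ∈ U, r a j := by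
        rw [← Fintype.sum_ite_mem U, ← sum_add_distrib]
        exact sum_congr rfl fun a _ => by by_cases ha : a ∈ U <;> simp [hx, ha]
      rw [k2]
      nlinarith [sq_sum_le_card_mul_sum_sq (s := U) (f := fun a => r a j),
        sq_nonneg (∑ a, x a j - ∑ a ∈ U, r a j)]
    refine (sum_le_sum fun j _ => k1 j).trans ?_
    rw [sum_add_distrib, ← mul_sum, ← mul_sum, ← mul_sum, sum_comm]
    nlinarith [mul_le_mul hU2 hU1 (by positivity) (by positivity)]
  have e2 := groth (fun a b : Fin v => 1 - ω * mult g y a b) (κ := κ)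
    (fun s t hs ht => by
      refine le_of_eq_of_le ?_ (h s t hs ht)
      rw [← sum_mult g y fun a b => s a * t b, sum_mul_sum]
      simp only [sub_mul, one_mul, sum_sub_distrib, mul_sum, mul_assoc])
    x x (by positivity) x1 x1
  simp only [sub_mul, one_mul, sum_sub_distrib, mul_assoc, ← mul_sum] at e2
  have e3 : ω * ∑ a : Fin v, ∑ b : Fin v, (mult g y a b : ℝ) * ∑ j, x a j * x b j ≤
      (n : ℝ) ^ 2 * ∑ a : Fin v, ∑ b : Fin v, (mult g y a b : ℝ) * max (ρ a b) 0 :=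
    (mul_le_mul_of_nonneg_left (sum_le_sum fun a _ => sum_le_sum fun b _ =>
      mul_le_mul_of_nonneg_left (x2 a b) (Nat.cast_nonneg _)) hω0).trans
      (mul_le_mul_of_nonneg_right hω (by positivity))
  have e4 : κ * (8 / (k : ℝ)) ≤ k / 2 ^ 15 := by
    rw [← mul_div_assoc, div_le_iff₀ k0]
    nlinarith
  unfold value
  linarith

end Pool.Agent.Lib.MP_79d702_lc.Tar
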