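import Pool.Agent.Lib.MP_79d702_lc.Tar.Lang
import Pool.Agent.Lib.MP_79d702_lc.Tar.Refute

/-!
The language on the inputs of the chain.
-/

namespace Pool.Agent.Lib.MP_79d702_lc.Tar

open Finset Pool.Agent.Lib.MP_79d702_lc.Neg Pool.Agent.Lib.MP_79d702_lc.Two

variable {v N : ℕ}

/-- the slots of block `j` that are switched off -/
def act (n N : ℕ) (X : Finset ℕ) (j : ℕ) : Finset (Fin N) :=
  univ.filter fun i => ¬ (n / 2 + j * N + i < n ∧ n / 2 + j * N + i ∈ X)

theorem mem_act {n j : ℕ} {X : Finset ℕ} {i : Fin N} :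
    i ∈ act n N X j ↔ ¬ (n / 2 + j * N + i < n ∧ n / 2 + j * N + i ∈ X) := by
  rw [act, mem_filter]; exact and_iff_right (mem_univ _)

theorem mult_mono (g : Fin N → Fin v × Fin v) {y y' : Finset (Fin N)} (h : y ⊆ y') (a b : ℕ) :
    mult g y a b ≤ mult g y' a b := card_le_card (filter_subset_filter _ h)

theorem sum_mult_le (g : Fin N → Fin v × Fin v) (y : Finset (Fin N)) :
    ∑ a : Fin v, ∑ b : Fin v, mult g y a b ≤ N := by
  have h := sum_mult g y fun _ _ => 1
  simp only [mul_one, sum_const, nsmul_eq_mul] at h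
  have h' : ∑ a : Fin v, ∑ b : Fin v, mult g y a b = y.card := by exact_mod_cast h
  simpa [h'] using card_le_univ y

theorem lang_vec {n k : ℕ} {g : Fin N → Fin v × Fin v} (hv : 1 ≤ v) (h1 : 3 * v < n / 4)
    (h2 : 3 * N + 1 < n / 4) (h3 : 3 * k + 2 < n / 4) (h4 : 4 * Nat.size v * N ≤ n / 4)
    {X : Finset ℕ} (hs : start n k g ⊆ X) (hX : ∀ p ∈ X, p ∈ start n k g ∨ n / 2 ≤ p) :
    lang (List.ofFn (vec n X)) = true ↔
      ∃ j < n, acc n v k (mk v fun a b => mult g (act n N X j) a b) = true := by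
  have c1 : ∀ i : Fin N, ∀ c < 2, ∀ u < v,
      cand (List.ofFn (vec n X)) v i c u = true ↔ (en g i c : ℕ) = u := by
    intro i c hc u hu
    rw [cand_iff (by simp; omega)]
    simp only [List.length_ofFn, getD_vec]
    constructor
    · intro e2
      refine (eq_of_bits (hu.trans (Nat.lt_size_self v)) ((en g i c).2.trans (Nat.lt_size_self v))
        fun b hb => ?_).symm
      have h5 := rail_lt u h4 i.2 hc hb
      rcases mem_start.mp ((hX _ (e2 b hb).2).resolve_right (by omega)) with h | ⟨i', c', hc', b',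
        hb', h⟩
      · omega
      · obtain ⟨h6, h7, h8⟩ := rail_inj hc hc' hb hb' h.symm
        rw [h8, Fin.ext h6, h7]
    · rintro rfl b hb
      have := (rail_lt (en g i c) h4 i.2 hc hb).2
      exact ⟨by omega, hs (mem_start.mpr (Or.inr ⟨i, c, hc, b, hb, rfl⟩))⟩
  have c2 : ∀ i : Fin N, ∀ c < 2, cnt (List.ofFn (vec n X)) v i c = 1 := by
    intro i c hc
    rw [cnt, countP_range, card_eq_one]
    exact ⟨en g i c, Finset.ext fun u => by
      rw [mem_filter, c1 i c hc u u.2, Fin.val_inj, eq_comm]; simp⟩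
  have c3 : ∀ j, (mk v fun a b => mlt (List.ofFn (vec n X)) v N j a b) =
      mk v fun a b => mult g (act n N X j) a b := by
    intro j
    refine List.map_congr_left fun a ha => List.map_congr_left fun b hb => congrArg _ ?_
    rw [List.mem_range] at ha hb
    rw [mlt, countP_range, mult, act, filter_filter]
    refine congrArg _ (filter_congr fun i _ => ?_)
    simp only [Bool.and_eq_true, Bool.not_eq_true', ← Bool.not_eq_true, c1 i 0 (by norm_num) a ha,
      c1 i 1 (by norm_num) b hb, free, c2 i 0 (by norm_num), c2 i 1 (by norm_num), Bool.or_eq_true,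
      decide_eq_true_eq, List.length_ofFn, getD_vec, and_assoc]
    simp [en]
  have sel : ∀ p ∈ X, p < n / 4 → p = 3 * v ∨ p = 3 * N + 1 ∨ p = 3 * k + 2 := by
    intro p hp h
    refine (mem_start.mp ((hX p hp).resolve_right (by omega))).resolve_right ?_
    rintro ⟨i, c, hc, b, hb, rfl⟩
    have := (rail_lt (en g i c) h4 i.2 hc hb).1
    omega
  simp only [lang_iff, blk, Bool.and_eq_true, decide_eq_true_eq, List.all_eq_true, List.mem_range,
    Bool.or_eq_true, List.length_ofFn, getD_vec]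
  constructor
  · rintro ⟨v', N', k', j, hj, ⟨⟨⟨⟨⟨⟨⟨-, a1⟩, a2⟩, a3⟩, a5⟩, a6⟩, a7⟩, -⟩, a9⟩
    obtain rfl : v = v' := by have := sel _ a5.2 a1; omega
    obtain rfl : N = N' := by have := sel _ a6.2 a2; omega
    obtain rfl : k = k' := by have := sel _ a7.2 a3; omega
    exact ⟨j, hj, c3 j ▸ a9⟩
  · rintro ⟨j, hj, h⟩
    exact ⟨v, N, k, j, hj, ⟨⟨⟨⟨⟨⟨⟨hv, h1⟩, h2⟩, h3⟩, by omega, hs (mem_start.mpr (by simp))⟩,
      by omega, hs (mem_start.mpr (by simp))⟩, by omega, hs (mem_start.mpr (by simp))⟩,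
      fun i hi => Or.inr ⟨(c2 ⟨i, hi⟩ 0 (by norm_num)).ge, (c2 ⟨i, hi⟩ 1 (by norm_num)).ge⟩⟩,
      (c3 j).symm ▸ h⟩

theorem layout_boundP {n k w m r t : ℕ} {τ : ℝ} {g : Fin N → Fin v × Fin v}
    (P : Par (epg g) w m r τ)
    (hneg : Ex (τ ^ 980) (fun y => ind (acc n v k (mk v fun a b => mult g y a b) = true)) ≤
      (1 / 2) ^ w) (hk : 2 * k ≤ τ ^ 2940 * v) (hk1 : 1 ≤ k) (hv : 1 ≤ v) (hN : 1 ≤ N)
    (h1 : 3 * v < n / 4)
    (h2 : 3 * N + 1 < n / 4) (h3 : 3 * k + 2 < n / 4) (h4 : 4 * Nat.size v * N ≤ n / 4)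
    (h5 : n / 2 + 32 * 2 ^ t * N ≤ n) (C : Circuit n) (ht : C.nots ≤ t) (hC : C.Decides lang) :
    2 ^ w ≤ 64 * 2 ^ t * (C.size + 1) := by
  obtain ⟨-, -, t3, -⟩ := P.facts
  have t0 := P.t0
  have p1 : ∀ k : ℕ, τ ^ k ≤ 1 := fun k => pow_le_one₀ t0.le (by linarith)
  have p0 : ∀ k : ℕ, 0 ≤ τ ^ k := fun k => by positivity
  have hm : ∀ y, ∑ a : Fin v, ∑ b : Fin v, mult g y a b ≤ n := fun y =>
    (sum_mult_le g y).trans (by omega)
  have mono : ∀ y y', y ⊆ y' → acc n v k (mk v fun a b => mult g y' a b) = true →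
      acc n v k (mk v fun a b => mult g y a b) = true := fun y y' h =>
    acc_mono hv (by omega) (hm y') fun a _ b _ => mult_mono g h a b
  have hst : ∀ p ∈ start n k g, p < n / 2 := by
    intro p hp
    rcases mem_start.mp hp with h | ⟨i, c, hc, b, hb, rfl⟩
    · omega
    · exact (rail_lt _ h4 i.2 hc hb).2
  refine bound2 P (emb := fun j i => n / 2 + j * N + i) (fun j i i' h => Fin.ext (by
      simp only at h; omega)) C ht
    (fun j X => start n k g ⊆ X ∧ (∀ p ∈ X, p ∈ start n k g ∨ (n / 2 ≤ p ∧ p < n / 2 + j * N)) ∧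
      ∀ j', ¬ acc n v k (mk v fun a b => mult g (act n N X j') a b) = true) (start n k g)
      ⟨le_rfl, fun p hp => Or.inl hp, ?_⟩ ?_ ?_ ?_
  · intro j h
    have h6 := (Ex_mono (p0 980) (p1 _) (φ := fun _ => 1) fun y => (ind_pos (mono y _ (fun i _ =>
      mem_act.mpr fun h => absurd (hst _ h.2) (by omega)) h)).ge).trans hneg
    rw [Ex_const] at h6
    exact absurd (pow_lt_one₀ (by norm_num) (by norm_num) (by have := P.hw; omega)) h6.not_gt
  · rintro j X ⟨a1, a2, a3⟩ h
    rw [hC, lang_vec hv h1 h2 h3 h4 a1 fun p hp => (a2 p hp).imp_right And.left] at h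
    obtain ⟨j', -, h⟩ := h
    exact a3 j' h
  · rintro j hj X ⟨a1, a2, -⟩
    refine le_trans (Ex_mono (p0 _) (p1 _) fun S => ind_mono ?_)
      (pos_accept (V := Fin v) (p0 2940) (p1 _) (k := k) (by simpa using hk))
    refine fun h hS => h ?_
    have e1 := Nat.mul_le_mul_right N (Nat.succ_le_of_lt hj)
    have e2 : j ≤ j * N := Nat.le_mul_of_pos_right _ hN
    rw [Nat.succ_mul] at e1
    rw [hC, lang_vec hv h1 h2 h3 h4 (a1.trans subset_union_left) fun p hp => by
      rcases mem_union.mp hp with hp | hp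
      · exact (a2 p hp).imp_right And.left
      · obtain ⟨i, -, rfl⟩ := mem_image.mp hp
        exact Or.inr (by omega)]
    refine ⟨j, by omega, acc_pos hv (by omega) hk1 (hm _) (le_trans (Nat.cast_le.mpr hS)
      (theta_indep n (card_pos.mp (by omega)) fun a ha b hb => ?_))⟩
    rw [mult, card_eq_zero, filter_eq_empty_iff]
    rintro i hi ⟨e3, e4⟩
    refine mem_act.mp hi ⟨by omega, mem_union_right _ (mem_image_of_mem _ (mem_ins.mpr ?_))⟩
    rw [epg, Fin.ext e3, Fin.ext e4]
    exact insert_subset ha (singleton_subset_iff.mpr hb)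
  · rintro j - X ⟨a1, a2, a3⟩
    refine le_trans (Ex_mono (p0 _) (p1 _) fun y => ind_mono fun h => ?_) hneg
    by_contra hy
    refine h ⟨a1.trans subset_union_left, fun p hp => ?_, fun j' s => ?_⟩
    · rw [Nat.succ_mul]
      rcases mem_union.mp hp with hp | hp
      · exact (a2 p hp).imp_right fun h => ⟨h.1, by omega⟩
      · obtain ⟨i, -, rfl⟩ := mem_image.mp hp
        exact Or.inr ⟨by omega, by omega⟩
    · have hj : ∀ i i' : Fin N, n / 2 + j * N + i' = n / 2 + j' * N + i → j = j' ∧ i' = i := by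
        intro i i' h
        have h6 : j * N + i' = j' * N + i := by omega
        have h7 := congrArg (· % N) h6
        simp only [Nat.mul_add_mod_of_lt i.2, Nat.mul_add_mod_of_lt i'.2] at h7
        rw [h7] at h6
        exact ⟨Nat.eq_of_mul_eq_mul_right hN (Nat.add_right_cancel h6), Fin.ext h7⟩
      by_cases hjj : j = j'
      · subst hjj
        refine hy (mono _ _ (fun i hi => mem_act.mpr fun h => ?_) s)
        rcases mem_union.mp h.2 with hp | hp
        · rcases a2 _ hp with h | h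
          · have := hst _ h; omega
          · omega
        · obtain ⟨i', hi', h⟩ := mem_image.mp hp
          exact mem_compl.mp hi' ((hj i i' h).2 ▸ hi)
      · refine a3 j' (mono _ _ (fun i hi => mem_act.mpr fun h =>
          mem_act.mp hi ⟨h.1, (mem_union.mp h.2).resolve_right fun hp => ?_⟩) s)
        obtain ⟨i', -, h⟩ := mem_image.mp hp
        exact hjj (hj i i' h).1

end Pool.Agent.Lib.MP_79d702_lc.Tar
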