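import Pool.Agent.Lib.MP_79d702_lc.Tar.Defs

/-!
The power method and elementary facts on density matrices.
-/

namespace Pool.Agent.Lib.MP_79d702_lc.Tar

open Finset Matrix

variable {v : ℕ}

theorem spec {P : Matrix (Fin v) (Fin v) ℝ} (hP : P.PosSemidef) :
    ∃ (U : Matrix (Fin v) (Fin v) ℝ) (l : Fin v → ℝ), (∀ i, 0 ≤ l i) ∧ Uᵀ * U = 1 ∧
      U * Uᵀ = 1 ∧ P = U * diagonal l * Uᵀ := by
  refine ⟨(hP.1.eigenvectorUnitary : Matrix (Fin v) (Fin v) ℝ), hP.1.eigenvalues,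
    hP.eigenvalues_nonneg, ?_, ?_, ?_⟩
  · have := Unitary.coe_star_mul_self hP.1.eigenvectorUnitary
    simpa [star_eq_conjTranspose] using this
  · have := Unitary.coe_mul_star_self hP.1.eigenvectorUnitary
    simpa [star_eq_conjTranspose] using this
  · have := hP.1.spectral_theorem
    rw [Unitary.conjStarAlgAut_apply] at this
    simpa [star_eq_conjTranspose] using this

theorem conj_pow {U : Matrix (Fin v) (Fin v) ℝ} (h1 : Uᵀ * U = 1) (h2 : U * Uᵀ = 1)
    (l : Fin v → ℝ) (p : ℕ) :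
    (U * diagonal l * Uᵀ) ^ p = U * diagonal (fun i => l i ^ p) * Uᵀ := by
  induction p with
  | zero => simp [h2]
  | succ p ih =>
    rw [pow_succ, ih]
    calc U * diagonal (fun i => l i ^ p) * Uᵀ * (U * diagonal l * Uᵀ)
        = U * (diagonal (fun i => l i ^ p) * (Uᵀ * U) * diagonal l) * Uᵀ := by
          simp only [Matrix.mul_assoc]
      _ = _ := by
          rw [h1, Matrix.mul_one, diagonal_mul_diagonal]
          simp only [pow_succ]

theorem conj_trace {U : Matrix (Fin v) (Fin v) ℝ} (h1 : Uᵀ * U = 1) (l : Fin v → ℝ) :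
    (U * diagonal l * Uᵀ).trace = ∑ i, l i := by
  rw [trace_mul_cycle, h1, Matrix.one_mul, trace_diagonal]

theorem psd_symm {ρ : Matrix (Fin v) (Fin v) ℝ} (h : ρ.PosSemidef) (a b : Fin v) :
    ρ a b = ρ b a := by
  have := h.1.apply a b
  simpa using this.symm

theorem pair_trace (P : Matrix (Fin v) (Fin v) ℝ) {ρ : Matrix (Fin v) (Fin v) ℝ}
    (h : ρ.PosSemidef) : ∑ a, ∑ b, P a b * ρ a b = (P * ρ).trace := by
  simp only [trace, diag_apply, mul_apply]
  exact sum_congr rfl fun a _ => sum_congr rfl fun b _ => by rw [psd_symm h a b]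

theorem pow_gap {l L : ℝ} (h0 : 0 ≤ l) (h : l ≤ L) (p : ℕ) :
    (p + 1) * (l ^ p * (L - l)) ≤ L ^ (p + 1) - l ^ (p + 1) := by
  induction p with
  | zero => simp
  | succ p ih =>
    have h1 : 0 ≤ ((p : ℝ) + 1) * (l ^ p * (L - l)) :=
      mul_nonneg (by positivity) (mul_nonneg (pow_nonneg h0 p) (sub_nonneg.2 h))
    have h2 : l * ((p + 1) * (l ^ p * (L - l))) ≤ L * (L ^ (p + 1) - l ^ (p + 1)) :=
      mul_le_mul h ih h1 (h0.trans h)
    push_cast
    calc ((p : ℝ) + 1 + 1) * (l ^ (p + 1) * (L - l))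
        = l * ((p + 1) * (l ^ p * (L - l))) + l ^ (p + 1) * (L - l) := by ring
      _ ≤ L * (L ^ (p + 1) - l ^ (p + 1)) + l ^ (p + 1) * (L - l) := by linarith
      _ = _ := by ring

/-- a high power of a positive semidefinite matrix is an almost optimal density matrix -/
theorem power {P : Matrix (Fin v) (Fin v) ℝ} (hP : P.PosSemidef) (h0 : 0 < P.trace) (p : ℕ) :
    0 < (P ^ p).trace ∧ Dens (((P ^ p).trace)⁻¹ • P ^ p) ∧
    ∀ ρ : Matrix (Fin v) (Fin v) ℝ, Dens ρ → ∑ a, ∑ b, P a b * ρ a b ≤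
      ∑ a, ∑ b, P a b * (((P ^ p).trace)⁻¹ * (P ^ p) a b) + v * P.trace / (p + 1) := by
  obtain ⟨U, l, hl, h1, h2, hU⟩ := spec hP
  have tr : ∀ q : ℕ, (P ^ q).trace = ∑ i, l i ^ q := fun q => by
    rw [hU, conj_pow h1 h2, conj_trace h1]
  have tr1 : P.trace = ∑ i, l i := by simpa using tr 1
  have hne : (univ : Finset (Fin v)).Nonempty := by
    by_contra hc
    rw [not_nonempty_iff_eq_empty] at hc
    rw [tr1, hc, sum_empty] at h0
    exact lt_irrefl _ h0
  obtain ⟨i0, -, hi0⟩ := exists_max_image univ l hne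
  have hL : 0 < l i0 := by
    by_contra hc
    have : ∑ i, l i ≤ 0 := sum_nonpos fun i _ => (hi0 i (mem_univ i)).trans (not_lt.1 hc)
    linarith
  have hLt : l i0 ≤ P.trace := by
    rw [tr1]; exact single_le_sum (fun i _ => hl i) (mem_univ i0)
  have hp : l i0 ^ p ≤ (P ^ p).trace := by
    rw [tr]; exact single_le_sum (f := fun i => l i ^ p) (fun i _ => pow_nonneg (hl i) p) (mem_univ i0)
  have hpos : 0 < (P ^ p).trace := lt_of_lt_of_le (pow_pos hL p) hp
  refine ⟨hpos, ⟨(hP.pow p).smul (inv_nonneg.2 hpos.le), ?_⟩, fun ρ hρ => ?_⟩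
  · rw [trace_smul, smul_eq_mul, inv_mul_cancel₀ hpos.ne']
  · have hW : (Uᵀ * ρ * U).PosSemidef := by
      have := hρ.1.conjTranspose_mul_mul_same U
      simpa using this
    have hWt : ∑ i, (Uᵀ * ρ * U) i i = 1 := by
      have : (Uᵀ * ρ * U).trace = 1 := by rw [trace_mul_cycle, h2, Matrix.one_mul, hρ.2]
      exact this
    have e1 : ∑ a, ∑ b, P a b * ρ a b ≤ l i0 := by
      rw [pair_trace P hρ.1]
      have : (P * ρ).trace = ∑ i, l i * (Uᵀ * ρ * U) i i := by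
        have e : (P * ρ).trace = (diagonal l * (Uᵀ * ρ * U)).trace := by
          rw [hU, Matrix.mul_assoc, Matrix.mul_assoc, trace_mul_comm]
          simp only [Matrix.mul_assoc]
        rw [e]
        simp only [trace, diag_apply, diagonal_mul]
      rw [this]
      calc ∑ i, l i * (Uᵀ * ρ * U) i i ≤ ∑ i, l i0 * (Uᵀ * ρ * U) i i :=
            sum_le_sum fun i _ => mul_le_mul_of_nonneg_right (hi0 i (mem_univ i)) hW.diag_nonneg
        _ = l i0 := by rw [← mul_sum, hWt, mul_one]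
    have e2 : ∑ a, ∑ b, P a b * (((P ^ p).trace)⁻¹ * (P ^ p) a b) =
        ((P ^ p).trace)⁻¹ * ∑ i, l i ^ (p + 1) := by
      rw [← tr, pow_succ', ← pair_trace P (hP.pow p), mul_sum]
      refine sum_congr rfl fun a _ => ?_
      rw [mul_sum]
      exact sum_congr rfl fun b _ => by ring
    have e3 : ((p : ℝ) + 1) * (l i0 * (P ^ p).trace - ∑ i, l i ^ (p + 1)) ≤ v * l i0 ^ (p + 1) := by
      rw [tr, mul_sum, ← sum_sub_distrib, mul_sum]
      calc ∑ i, ((p : ℝ) + 1) * (l i0 * l i ^ p - l i ^ (p + 1)) ≤ ∑ _i : Fin v, l i0 ^ (p + 1) := by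
            refine sum_le_sum fun i _ => ?_
            have g := pow_gap (hl i) (hi0 i (mem_univ i)) p
            have g2 := pow_nonneg (hl i) (p + 1)
            calc ((p : ℝ) + 1) * (l i0 * l i ^ p - l i ^ (p + 1))
                = (p + 1) * (l i ^ p * (l i0 - l i)) := by ring
              _ ≤ _ := by linarith
        _ = _ := by simp
    have e4 : (v : ℝ) * l i0 ^ (p + 1) ≤ v * P.trace * (P ^ p).trace := by
      rw [mul_assoc, pow_succ']
      exact mul_le_mul_of_nonneg_left (mul_le_mul hLt hp (pow_pos hL p).le h0.le) (Nat.cast_nonneg v)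
    have hp1 : (0 : ℝ) < p + 1 := by positivity
    have e5 : l i0 - ((P ^ p).trace)⁻¹ * ∑ i, l i ^ (p + 1) ≤ v * P.trace / (p + 1) := by
      rw [le_div_iff₀ hp1]
      have : (l i0 - ((P ^ p).trace)⁻¹ * ∑ i, l i ^ (p + 1)) * (p + 1) =
          ((p : ℝ) + 1) * (l i0 * (P ^ p).trace - ∑ i, l i ^ (p + 1)) / (P ^ p).trace := by
        field_simp
      rw [this, div_le_iff₀ hpos]
      exact e3.trans e4
    rw [e2]
    linarith

theorem Dens.symm {ρ : Matrix (Fin v) (Fin v) ℝ} (h : Dens ρ) (a b : Fin v) : ρ a b = ρ b a :=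
  psd_symm h.1 a b

theorem Dens.gram {ρ : Matrix (Fin v) (Fin v) ℝ} (h : Dens ρ) :
    ∃ r : Fin v → Fin v → ℝ, (∀ a b, ρ a b = ∑ j, r a j * r b j) ∧ ∑ a, ∑ j, r a j ^ 2 = 1 := by
  obtain ⟨U, l, hl, -, -, hU⟩ := spec h.1
  have key : ∀ a b, ρ a b = ∑ j, (U a j * Real.sqrt (l j)) * (U b j * Real.sqrt (l j)) := by
    intro a b
    rw [hU, mul_apply]
    refine sum_congr rfl fun j _ => ?_
    rw [mul_diagonal, transpose_apply]
    have := Real.mul_self_sqrt (hl j)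
    calc U a j * l j * U b j = U a j * (Real.sqrt (l j) * Real.sqrt (l j)) * U b j := by rw [this]
      _ = _ := by ring
  refine ⟨fun a j => U a j * Real.sqrt (l j), key, ?_⟩
  rw [← h.2]
  simp only [trace, diag_apply]
  refine sum_congr rfl fun a _ => ?_
  rw [key a a]
  exact sum_congr rfl fun j _ => by ring

theorem Dens.abs_le {ρ : Matrix (Fin v) (Fin v) ℝ} (h : Dens ρ) (a b : Fin v) : |ρ a b| ≤ 1 := by
  obtain ⟨r, hr, h1⟩ := h.gram
  have hs : ∀ c, ∑ j, r c j ^ 2 ≤ 1 := fun c => by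
    rw [← h1]
    exact single_le_sum (f := fun a => ∑ j, r a j ^ 2)
      (fun a _ => sum_nonneg fun j _ => sq_nonneg _) (mem_univ c)
  have cs := sum_mul_sq_le_sq_mul_sq univ (r a) (r b)
  have h2 : (∑ j, r a j ^ 2) * ∑ j, r b j ^ 2 ≤ 1 :=
    mul_le_one₀ (hs a) (sum_nonneg fun j _ => sq_nonneg _) (hs b)
  rw [hr, ← sq_le_one_iff_abs_le_one]
  exact cs.trans h2

theorem Dens.avg {T : ℕ} (hT : 0 < T) {ρ : ℕ → Matrix (Fin v) (Fin v) ℝ} (h : ∀ t, Dens (ρ t)) :
    Dens ((T : ℝ)⁻¹ • ∑ t ∈ range T, ρ t) := by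
  have hT' : (0 : ℝ) < T := Nat.cast_pos.2 hT
  refine ⟨(posSemidef_sum _ fun t _ => (h t).1).smul (inv_nonneg.2 hT'.le), ?_⟩
  rw [trace_smul, trace_sum, sum_congr rfl fun t _ => (h t).2]
  simp [hT'.ne']

theorem value_le (n : ℕ) (m : ℕ → ℕ → ℕ) {ρ : Matrix (Fin v) (Fin v) ℝ} (h : Dens ρ) :
    value n m ρ ≤ (v : ℝ) * v := by
  have h1 : ∑ a, ∑ b, ρ a b ≤ (v : ℝ) * v := by
    calc ∑ a, ∑ b, ρ a b ≤ ∑ _a : Fin v, ∑ _b : Fin v, (1 : ℝ) :=
          sum_le_sum fun a _ => sum_le_sum fun b _ => (le_abs_self _).trans (h.abs_le a b)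
      _ = _ := by simp
  have h2 : 0 ≤ 2 * (n : ℝ) ^ 2 * ∑ a : Fin v, ∑ b : Fin v, (m a b : ℝ) * max (ρ a b) 0 :=
    mul_nonneg (by positivity) (sum_nonneg fun a _ => sum_nonneg fun b _ =>
      mul_nonneg (Nat.cast_nonneg _) (le_max_right _ _))
  unfold value
  linarith

theorem le_theta (n : ℕ) (m : ℕ → ℕ → ℕ) {ρ : Matrix (Fin v) (Fin v) ℝ} (h : Dens ρ) :
    value n m ρ ≤ theta n v m := by
  refine le_csSup ⟨(v : ℝ) * v, ?_⟩ ⟨ρ, h, rfl⟩
  rintro x ⟨σ, hσ, rfl⟩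
  exact value_le n m hσ

/-- the normalised indicator matrix of a nonempty set -/
theorem dens_ind {S : Finset (Fin v)} (hS : S.Nonempty) :
    Dens (((S.card : ℝ))⁻¹ • vecMulVec (fun a => if a ∈ S then (1 : ℝ) else 0)
      (fun a => if a ∈ S then (1 : ℝ) else 0)) := by
  have hc : (0 : ℝ) < S.card := Nat.cast_pos.2 hS.card_pos
  refine ⟨PosSemidef.smul ?_ (inv_nonneg.2 hc.le), ?_⟩
  · have := posSemidef_vecMulVec_self_star (fun a : Fin v => if a ∈ S then (1 : ℝ) else 0)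
    simpa using this
  · rw [trace_smul]
    simp [trace, vecMulVec_apply, hc.ne']

theorem theta_le (hv : 1 ≤ v) {n : ℕ} {m : ℕ → ℕ → ℕ} {x : ℝ}
    (h : ∀ ρ : Matrix (Fin v) (Fin v) ℝ, Dens ρ → value n m ρ ≤ x) : theta n v m ≤ x := by
  have hne : ({⟨0, hv⟩} : Finset (Fin v)).Nonempty := singleton_nonempty _
  refine csSup_le ⟨_, _, dens_ind hne, rfl⟩ ?_
  rintro y ⟨σ, hσ, rfl⟩
  exact h σ hσ

theorem theta_anti (hv : 1 ≤ v) (n : ℕ) {m m' : ℕ → ℕ → ℕ} (h : ∀ a < v, ∀ b < v, m' a b ≤ m a b) :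
    theta n v m ≤ theta n v m' := by
  refine theta_le hv fun ρ hρ => le_trans ?_ (le_theta n m' hρ)
  unfold value
  have : ∑ a : Fin v, ∑ b : Fin v, (m' a b : ℝ) * max (ρ a b) 0 ≤
      ∑ a : Fin v, ∑ b : Fin v, (m a b : ℝ) * max (ρ a b) 0 :=
    sum_le_sum fun a _ => sum_le_sum fun b _ =>
      mul_le_mul_of_nonneg_right (Nat.cast_le.2 (h a a.2 b b.2)) (le_max_right _ _)
  have h2 : (0 : ℝ) ≤ 2 * (n : ℝ) ^ 2 := by positivity
  have := mul_le_mul_of_nonneg_left this h2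
  linarith

theorem theta_indep (n : ℕ) {m : ℕ → ℕ → ℕ} {S : Finset (Fin v)} (hS : S.Nonempty)
    (h : ∀ a ∈ S, ∀ b ∈ S, m a b = 0) : (S.card : ℝ) ≤ theta n v m := by
  refine le_trans (le_of_eq ?_) (le_theta n m (dens_ind hS))
  have hc : (0 : ℝ) < S.card := Nat.cast_pos.2 hS.card_pos
  unfold value
  have e1 : ∑ a : Fin v, ∑ b : Fin v, (m a b : ℝ) * max ((((S.card : ℝ))⁻¹ •
      vecMulVec (fun a => if a ∈ S then (1 : ℝ) else 0)
      (fun a => if a ∈ S then (1 : ℝ) else 0)) a b) 0 = 0 := by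
    refine sum_eq_zero fun a _ => sum_eq_zero fun b _ => ?_
    by_cases ha : a ∈ S
    · by_cases hb : b ∈ S
      · simp [h a ha b hb]
      · simp [vecMulVec_apply, hb]
    · simp [vecMulVec_apply, ha]
  rw [e1, mul_zero, sub_zero]
  simp only [Matrix.smul_apply, vecMulVec_apply, smul_eq_mul, ← mul_sum]
  rw [← sum_mul]
  simp [hc.ne']

/-- the list power is the matrix power -/
theorem ent_mpow (A : List (List ℤ)) (p : ℕ) (a b : Fin v) :
    (ent (mpow v A p) a b : ℝ) =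
      ((Matrix.of fun a b : Fin v => (ent A a b : ℝ)) ^ p) a b := by
  induction p generalizing a b with
  | zero =>
    simp only [mpow, List.range_zero, List.foldl_nil, ent_mk', pow_zero, one_apply, Fin.val_inj]
    split_ifs <;> simp
  | succ p ih =>
    have e : mpow v A (p + 1) = mmul v (mpow v A p) A := by
      simp [mpow, List.range_succ]
    rw [e, pow_succ, mul_apply, mmul, ent_mk', sm_eq]
    push_cast
    exact sum_congr rfl fun c _ => by rw [ih, of_apply]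

end Pool.Agent.Lib.MP_79d702_lc.Tar
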