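import Pool.Agent.Lib.MP_79d702_lc.Tar.Power

/-!
One round of the algorithm, and the regret of the clamped weights.
-/

namespace Pool.Agent.Lib.MP_79d702_lc.Tar

open Finset Pool.Agent.Shared.PolyTime

theorem clamp_mem {lo hi : ℤ} (h : lo ≤ hi) (x : ℤ) : lo ≤ clamp lo hi x ∧ clamp lo hi x ≤ hi := by
  unfold clamp; split_ifs <;> omega

theorem clamp_proj {L : ℤ} (z : ℤ) {c : ℝ} (h0 : 0 ≤ c) (h1 : c ≤ L) :
    (c - clamp 0 L z) * (z - clamp 0 L z) ≤ 0 := by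
  unfold clamp
  split_ifs with h h'
  · have : (z : ℝ) ≤ 0 := by exact_mod_cast h
    push_cast; nlinarith
  · have : (L : ℝ) ≤ z := by exact_mod_cast h'
    nlinarith
  · simp

theorem regret {L : ℤ} (hL : 0 ≤ L) {Q : ℝ} (g : ℕ → ℤ) (h0 : g 0 = 0)
    (h : ∀ t, |(g (t + 1) : ℝ) - g t| ≤ Q) (T : ℕ) :
    L * max (g T : ℝ) 0 - L ^ 2 / 2 - T * Q ^ 2 / 2 ≤
      ∑ t ∈ range T, (clamp 0 L (g t) : ℝ) * (g (t + 1) - g t) := by
  have m : ∀ z, (0 : ℝ) ≤ clamp 0 L z ∧ (clamp 0 L z : ℝ) ≤ L := fun z => by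
    exact_mod_cast clamp_mem hL z
  have L0 : (0 : ℝ) ≤ L := by exact_mod_cast hL
  have key : ∀ T : ℕ, (clamp 0 L (g T) : ℝ) * g T - (clamp 0 L (g T) : ℝ) ^ 2 / 2 - T * Q ^ 2 / 2 ≤
      ∑ t ∈ range T, (clamp 0 L (g t) : ℝ) * (g (t + 1) - g t) := by
    intro T
    induction T with
    | zero => simp [h0, clamp]
    | succ T ih =>
      rw [sum_range_succ]
      have h1 := clamp_proj (g T) (m (g (T + 1))).1 (m (g (T + 1))).2
      have h2 : ((g (T + 1) : ℝ) - g T) ^ 2 ≤ Q ^ 2 := sq_le_sq' (abs_le.mp (h T)).1 (abs_le.mp (h T)).2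
      push_cast
      nlinarith [sq_nonneg ((clamp 0 L (g (T + 1)) : ℝ) - clamp 0 L (g T) - (g (T + 1) - g T))]
  refine le_trans ?_ (key T)
  have h1 := clamp_proj (g T) L0 le_rfl
  have h2 := clamp_proj (g T) le_rfl L0
  rcases le_total (g T : ℝ) 0 with h3 | h3
  · rw [max_eq_right h3]
    nlinarith [sq_nonneg (clamp 0 L (g T) : ℝ), sq_nonneg (L : ℝ)]
  · rw [max_eq_left h3]
    nlinarith [sq_nonneg ((L : ℝ) - clamp 0 L (g T))]

theorem idiv_near {x d : ℤ} (hd : 0 < d) : |(idiv x d : ℝ) - x / d| ≤ 1 := by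
  have key : ∀ a b : ℕ, 0 < b → ((a / b : ℕ) : ℝ) ≤ a / b ∧ (a : ℝ) / b ≤ (a / b : ℕ) + 1 := by
    intro a b hb
    refine ⟨Nat.cast_div_le, ?_⟩
    rw [div_le_iff₀ (by exact_mod_cast hb)]
    have := Nat.lt_div_mul_add (a := a) hb
    have h : (a : ℝ) < (a / b : ℕ) * b + b := by exact_mod_cast this
    linarith
  obtain ⟨b, rfl⟩ := Int.eq_ofNat_of_zero_le hd.le
  have hb : 0 < b := by exact_mod_cast hd
  unfold idiv
  obtain ⟨a, rfl | rfl⟩ := Int.eq_nat_or_neg x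
  · have := key a b hb
    rw [Int.toNat_neg_natCast, Int.toNat_natCast, Int.toNat_natCast, Nat.zero_div, abs_le]
    simp only [Int.cast_sub, Int.cast_natCast, Nat.cast_zero]
    constructor <;> linarith
  · have := key a b hb
    rw [neg_neg, Int.toNat_neg_natCast, Int.toNat_natCast, Int.toNat_natCast, Nat.zero_div, abs_le]
    simp only [Int.cast_sub, Int.cast_natCast, Nat.cast_zero, Int.cast_neg, neg_div]
    constructor <;> linarith

theorem clamp_near {Q z : ℤ} {r : ℝ} (h1 : |r| ≤ Q) (h2 : |(z : ℝ) - r| ≤ 1) :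
    |(clamp (-Q) Q z : ℝ) - r| ≤ 1 ∧ |(clamp (-Q) Q z : ℝ)| ≤ Q := by
  rw [abs_le] at h1 h2
  unfold clamp
  split_ifs with h h'
  · have : (z : ℝ) ≤ -Q := by exact_mod_cast h
    push_cast
    exact ⟨abs_le.mpr ⟨by linarith, by linarith⟩, abs_le.mpr ⟨by linarith, by linarith⟩⟩
  · have : (Q : ℝ) ≤ z := by exact_mod_cast h'
    exact ⟨abs_le.mpr ⟨by linarith, by linarith⟩, abs_le.mpr ⟨by linarith, by linarith⟩⟩
  · have h3 : -(Q : ℝ) ≤ z := by exact_mod_cast (not_le.mp h).le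
    have h4 : (z : ℝ) ≤ Q := by exact_mod_cast (not_le.mp h').le
    exact ⟨abs_le.mpr h2, abs_le.mpr ⟨h3, h4⟩⟩

variable {v : ℕ}

theorem form_eq (α s : ℝ) (w : Fin v → Fin v → ℝ) (ρ : Fin v → Fin v → ℝ)
    (hρ : ∀ a b, ρ a b = ρ b a) :
    ∑ a, ∑ b, (α * (if a = b then 1 + s else 1) - (w a b + w b a)) * ρ a b =
      α * (∑ a, ∑ b, ρ a b + s * ∑ a, ρ a a) - 2 * ∑ a, ∑ b, w a b * ρ a b := by
  have h1 : ∑ a, ∑ b, w b a * ρ a b = ∑ a, ∑ b, w a b * ρ a b := by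
    rw [sum_comm]; simp only [hρ]
  have h2 : ∀ a b, (α * (if a = b then 1 + s else 1) - (w a b + w b a)) * ρ a b =
      α * ρ a b + (if a = b then α * s * ρ a b else 0) - w a b * ρ a b - w b a * ρ a b := by
    intro a b; split_ifs <;> ring
  simp only [h2, sum_sub_distrib, sum_add_distrib, sum_ite_eq, mem_univ, if_true, h1, ← mul_sum]
  ring

theorem psd_of {α s : ℝ} (hα : 0 ≤ α) {w : Fin v → Fin v → ℝ} (hw : ∀ a b, 0 ≤ w a b)
    (hs : 2 * ∑ a, ∑ b, w a b ≤ α * s) :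
    (Matrix.of fun a b => α * (if a = b then 1 + s else 1) - (w a b + w b a)).PosSemidef := by
  refine Matrix.PosSemidef.of_dotProduct_mulVec_nonneg ?_ fun x => ?_
  · ext a b
    simp only [Matrix.conjTranspose_apply, Matrix.of_apply, star_trivial, eq_comm, add_comm]
  · have h1 := form_eq α s w (fun a b => x a * x b) fun a b => mul_comm _ _
    have h2 : star x ⬝ᵥ (Matrix.of fun a b =>
        α * (if a = b then 1 + s else 1) - (w a b + w b a)).mulVec x =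
        ∑ a, ∑ b, (α * (if a = b then 1 + s else 1) - (w a b + w b a)) * (x a * x b) := by
      simp only [dotProduct, Matrix.mulVec, Matrix.of_apply, star_trivial, mul_sum]
      exact sum_congr rfl fun a _ => sum_congr rfl fun b _ => by ring
    rw [h2, h1, ← sum_mul_sum]
    have h3 : ∀ a, x a * x a ≤ ∑ a, x a * x a := fun a =>
      single_le_sum (f := fun a => x a * x a) (fun _ _ => mul_self_nonneg _) (mem_univ a)
    have h4 : ∑ a, ∑ b, w a b * (x a * x b) ≤ (∑ a, ∑ b, w a b) * ∑ a, x a * x a := by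
      rw [sum_mul]
      refine sum_le_sum fun a _ => ?_
      rw [sum_mul]
      refine sum_le_sum fun b _ => mul_le_mul_of_nonneg_left ?_ (hw a b)
      nlinarith [h3 a, h3 b, sq_nonneg (x a - x b)]
    have h5 : 0 ≤ ∑ a, x a * x a := sum_nonneg fun _ _ => mul_self_nonneg _
    nlinarith [mul_nonneg hα (mul_self_nonneg (∑ a, x a)), mul_le_mul_of_nonneg_right hs h5]

theorem round {n : ℕ} (hv : 1 ≤ v) (hvn : v ≤ n) {m : ℕ → ℕ → ℕ}
    (hm : ∑ a : Fin v, ∑ b : Fin v, m a b ≤ n) (G : List (List ℤ)) :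
    ∃ ρ : Matrix (Fin v) (Fin v) ℝ, Dens ρ ∧
      (∀ a b : Fin v, |(ent (step n v (mk v fun a b => m a b) G) a b : ℝ) - ent G a b -
          pQ n * ρ a b| ≤ 1 ∧
        |(ent (step n v (mk v fun a b => m a b) G) a b : ℝ) - ent G a b| ≤ pQ n) ∧
      theta n v m - 3 / (128 * n) ≤ ∑ a, ∑ b, ρ a b - 2 * (n : ℝ) ^ 2 / (pQ n : ℝ) ^ 2 *
        ∑ a : Fin v, ∑ b : Fin v, m a b * (clamp 0 ((pQ n : ℤ) ^ 2) (ent G a b) * ρ a b) := by
  have v1 : (1 : ℝ) ≤ v := by exact_mod_cast hv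
  have vn : (v : ℝ) ≤ n := by exact_mod_cast hvn
  have n1 : (1 : ℝ) ≤ n := v1.trans vn
  have Q0 : (0 : ℝ) < pQ n := by unfold pQ; push_cast; positivity
  have hm' : ∑ a : Fin v, ∑ b : Fin v, (m a b : ℝ) ≤ n := by exact_mod_cast hm
  set c : Fin v → Fin v → ℝ := fun a b => clamp 0 ((pQ n : ℤ) ^ 2) (ent G a b) with hc
  have c0 : ∀ a b, 0 ≤ c a b ∧ c a b ≤ (pQ n : ℝ) ^ 2 := fun a b => by
    have := clamp_mem (lo := 0) (hi := (pQ n : ℤ) ^ 2) (by positivity) (ent G a b)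
    simp only [hc]
    exact_mod_cast this
  set w : Fin v → Fin v → ℝ := fun a b => 2 * (n : ℝ) ^ 2 * (m a b * c a b) with hw
  have w0 : ∀ a b, 0 ≤ w a b := fun a b => by have := (c0 a b).1; simp only [hw]; positivity
  have w1 : ∑ a, ∑ b, w a b ≤ 2 * (n : ℝ) ^ 2 * (pQ n : ℝ) ^ 2 * n := by
    refine le_trans ?_ (mul_le_mul_of_nonneg_left hm' (by positivity))
    simp only [mul_sum]
    refine sum_le_sum fun a _ => sum_le_sum fun b _ => ?_
    have := mul_le_mul_of_nonneg_left (c0 a b).2 (by positivity : (0 : ℝ) ≤ 2 * n ^ 2 * m a b)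
    simp only [hw]; linarith
  set P : Matrix (Fin v) (Fin v) ℝ := Matrix.of fun a b =>
    2 * (pQ n : ℝ) ^ 2 * (if a = b then 1 + 2 * (n : ℝ) ^ 3 else 1) - (w a b + w b a) with hP
  have eP : (Matrix.of fun a b : Fin v =>
      (ent (pmat n v (mk v fun a b => m a b) G) a b : ℝ)) = P := by
    ext a b
    simp only [hP, hw, hc, pmat, Matrix.of_apply, ent_mk', Fin.val_inj]
    split_ifs <;> push_cast <;> ring
  have psd : P.PosSemidef := psd_of (by positivity) w0 (by nlinarith)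
  have t1 : P.trace = v * (2 * (pQ n : ℝ) ^ 2 * (1 + 2 * (n : ℝ) ^ 3)) - 2 * ∑ a, w a a := by
    simp [hP, Matrix.trace, sum_sub_distrib, ← two_mul, ← mul_sum]
  have t2 : 0 ≤ ∑ a, w a a := sum_nonneg fun a _ => w0 a a
  have t3 : ∑ a, w a a ≤ ∑ a, ∑ b, w a b := sum_le_sum fun a _ =>
    single_le_sum (f := fun b => w a b) (fun b _ => w0 a b) (mem_univ a)
  have t4 : 0 < P.trace := by
    have := mul_le_mul_of_nonneg_right v1
      (by positivity : (0 : ℝ) ≤ 2 * (pQ n : ℝ) ^ 2 * (1 + 2 * (n : ℝ) ^ 3))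
    have : (0 : ℝ) < (pQ n : ℝ) ^ 2 := by positivity
    nlinarith
  obtain ⟨p1, p2, p3⟩ := power psd t4 (128 * n ^ 6)
  refine ⟨_, p2, fun a b => ?_, ?_⟩
  · have e1 : ((sm v fun c => ent (mpow v (pmat n v (mk v fun a b => m a b) G) (128 * n ^ 6)) c c :
        ℤ) : ℝ) = (P ^ (128 * n ^ 6)).trace := by
      rw [sm_eq]; push_cast
      simp only [ent_mpow, eP]; rfl
    have e2 : 0 < sm v fun c => ent (mpow v (pmat n v (mk v fun a b => m a b) G) (128 * n ^ 6)) c c := by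
      have := e1 ▸ p1
      exact_mod_cast this
    have e3 := idiv_near (x := (pQ n : ℤ) *
      ent (mpow v (pmat n v (mk v fun a b => m a b) G) (128 * n ^ 6)) a b) e2
    rw [e1, Int.cast_mul, ent_mpow, eP] at e3
    have e4 := clamp_near (Q := pQ n) (r := pQ n * (((P ^ (128 * n ^ 6)).trace)⁻¹ •
      P ^ (128 * n ^ 6)) a b) (by
        rw [abs_mul, abs_of_pos Q0]
        simpa using mul_le_of_le_one_right Q0.le (p2.abs_le a b))
      (by convert e3 using 3; simp [div_eq_mul_inv]; ring)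
    simp only [step, upd, ent_mk', Int.cast_add, add_sub_cancel_left]
    simpa using e4
  · rw [sub_le_iff_le_add]
    refine theta_le hv fun ρ hρ => ?_
    have e1 := p3 ρ hρ
    have e2 := form_eq (2 * (pQ n : ℝ) ^ 2) (2 * (n : ℝ) ^ 3) w ρ hρ.symm
    have e3 := form_eq (2 * (pQ n : ℝ) ^ 2) (2 * (n : ℝ) ^ 3) w _ p2.symm
    have e4 : ∑ a, ρ a a = 1 := hρ.2
    have e5 : ∑ a, (((P ^ (128 * n ^ 6)).trace)⁻¹ • P ^ (128 * n ^ 6)) a a = 1 := p2.2
    have e6 : ∑ a, ∑ b, w a b * ρ a b ≤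
        (pQ n : ℝ) ^ 2 * (2 * (n : ℝ) ^ 2 * ∑ a : Fin v, ∑ b : Fin v, (m a b : ℝ) * max (ρ a b) 0) := by
      simp only [mul_sum]
      refine sum_le_sum fun a _ => sum_le_sum fun b _ => ?_
      have h1 : c a b * ρ a b ≤ (pQ n : ℝ) ^ 2 * max (ρ a b) 0 :=
        (mul_le_mul_of_nonneg_left (le_max_left _ _) (c0 a b).1).trans
          (mul_le_mul_of_nonneg_right (c0 a b).2 (le_max_right _ _))
      have := mul_le_mul_of_nonneg_left h1 (by positivity : (0 : ℝ) ≤ 2 * n ^ 2 * m a b)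
      simp only [hw]; linarith
    have e7 : v * P.trace / ((128 * n ^ 6 : ℕ) + 1) ≤ 2 * (pQ n : ℝ) ^ 2 * (3 / (128 * n)) := by
      rw [div_le_iff₀ (by positivity)]
      have h1 : P.trace ≤ n * (2 * (pQ n : ℝ) ^ 2 * (3 * (n : ℝ) ^ 3)) := by
        have h2 : (1 : ℝ) ≤ (n : ℝ) ^ 3 := one_le_pow₀ n1
        refine le_trans (by linarith) (mul_le_mul vn (mul_le_mul_of_nonneg_left
          (by linarith : 1 + 2 * (n : ℝ) ^ 3 ≤ 3 * n ^ 3) (by positivity)) (by positivity)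
          (by positivity))
      refine (mul_le_mul vn h1 t4.le (by positivity)).trans ?_
      push_cast
      have h3 : 2 * (pQ n : ℝ) ^ 2 * (3 / (128 * n)) * (128 * n ^ 6 + 1) =
          n * (n * (2 * (pQ n : ℝ) ^ 2 * (3 * (n : ℝ) ^ 3))) + 2 * (pQ n : ℝ) ^ 2 * (3 / (128 * n)) := by
        field_simp
      have h4 : 0 ≤ 2 * (pQ n : ℝ) ^ 2 * (3 / (128 * n)) := by positivity
      linarith
    have e8 : ∑ a, ∑ b, w a b * (((P ^ (128 * n ^ 6)).trace)⁻¹ • P ^ (128 * n ^ 6)) a b =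
        (pQ n : ℝ) ^ 2 * (2 * (n : ℝ) ^ 2 / (pQ n : ℝ) ^ 2 * ∑ a : Fin v, ∑ b : Fin v,
          m a b * (c a b * (((P ^ (128 * n ^ 6)).trace)⁻¹ • P ^ (128 * n ^ 6)) a b)) := by
      rw [← mul_assoc, mul_div_cancel₀ _ (by positivity)]
      simp only [mul_sum, hw]
      exact sum_congr rfl fun a _ => sum_congr rfl fun b _ => by ring
    change ∑ a, ∑ b, P a b * ρ a b = _ at e2
    change ∑ a, ∑ b, P a b * (((P ^ (128 * n ^ 6)).trace)⁻¹ * (P ^ (128 * n ^ 6)) a b) = _ at e3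
    rw [e2, e3, e4, e5, e8] at e1
    refine le_of_mul_le_mul_left ?_ (by positivity : (0 : ℝ) < 2 * (pQ n : ℝ) ^ 2)
    unfold value
    nlinarith

end Pool.Agent.Lib.MP_79d702_lc.Tar
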